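import Pool.Agent.Lib.MP_ded8ec_lc.FC.Spec
import Pool.Agent.Lib.MP_ded8ec_lc.SG.OBS

/-!
# MP_ded8ec_lc, theorem FC, module BAS: the edges in perfect matchings of an induced subgraph of a Seymour graph
are two-coloured
-/

set_option autoImplicit false

namespace Pool.Agent.Lib.MPded8ec.FC

open Pool.Agent.Lib.MPded8ec.SG

universe u

namespace BASM

/-- A perfect matching as a list of pairs. -/
theorem list_of_mt {V : Type u} [DecidableEq V] (G : SimpleGraph V) : ∀ (n : ℕ) (A : Finset V), A.card = n →
    Mt G A → ∃ M : List (V × V), (∀ p ∈ M, G.Adj p.1 p.2) ∧ (vl M).Nodup ∧ ∀ x, x ∈ vl M ↔ x ∈ A := by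
  intro n
  induction n using Nat.strong_induction_on with
  | _ n ih =>
    intro A hA hm
    rcases A.eq_empty_or_nonempty with rfl | ⟨x, hx⟩
    · exact ⟨[], by simp, by simp [vl], by simp [vl]⟩
    · obtain ⟨m, hm⟩ := hm
      obtain ⟨h1, h2, h3⟩ := hm x hx
      have hne : x ≠ m x := h3.ne
      have hlt : (A \ {x, m x}).card < n := by
        rw [← hA]
        apply Finset.card_lt_card
        refine Finset.ssubset_iff_subset_ne.2 ⟨Finset.sdiff_subset, fun he => ?_⟩
        have : x ∈ A \ {x, m x} := by rw [he]; exact hx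
        simp at this
      have hm' : Mt G (A \ {x, m x}) := by
        refine ⟨m, fun y hy => ?_⟩
        rw [Finset.mem_sdiff, Finset.mem_insert, Finset.mem_singleton, not_or] at hy
        obtain ⟨hyA, hy1, hy2⟩ := hy
        obtain ⟨g1, g2, g3⟩ := hm y hyA
        refine ⟨?_, g2, g3⟩
        rw [Finset.mem_sdiff, Finset.mem_insert, Finset.mem_singleton, not_or]
        refine ⟨g1, fun he => hy2 ?_, fun he => hy1 ?_⟩
        · rw [← g2, he]
        · rw [← g2, he, h2]
      obtain ⟨M, hM1, hM2, hM3⟩ := ih _ hlt _ rfl hm'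
      refine ⟨(x, m x) :: M, ?_, ?_, ?_⟩
      · intro p hp
        rcases List.mem_cons.1 hp with rfl | hp
        · exact h3
        · exact hM1 p hp
      · rw [vl, List.nodup_cons, List.nodup_cons]
        refine ⟨?_, ?_, hM2⟩
        · rw [List.mem_cons, not_or]
          refine ⟨hne, fun h => ?_⟩
          have := (hM3 x).1 h
          simp at this
        · intro h
          have := (hM3 (m x)).1 h
          simp at this
      · intro y
        rw [vl, List.mem_cons, List.mem_cons, hM3]
        simp only [Finset.mem_sdiff, Finset.mem_insert, Finset.mem_singleton, not_or]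
        constructor
        · rintro (rfl | rfl | h)
          · exact hx
          · exact h1
          · exact h.1
        · intro h
          by_cases g1 : y = x
          · exact Or.inl g1
          · by_cases g2 : y = m x
            · exact Or.inr (Or.inl g2)
            · exact Or.inr (Or.inr ⟨h, g1, g2⟩)

/-- The list for `W` which contains the pair `(x, y)`. -/
theorem list_of_pair {V : Type u} [DecidableEq V] (G : SimpleGraph V) (W : Finset V) (x y : V) (hx : x ∈ W)
    (hy : y ∈ W) (ha : G.Adj x y) (hm : Mt G (W \ {x, y})) :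
    ∃ M : List (V × V), (x, y) ∈ M ∧ (∀ p ∈ M, G.Adj p.1 p.2) ∧ (vl M).Nodup ∧ ∀ z, z ∈ vl M ↔ z ∈ W := by
  obtain ⟨M, hM1, hM2, hM3⟩ := list_of_mt G _ _ rfl hm
  refine ⟨(x, y) :: M, List.mem_cons_self, ?_, ?_, ?_⟩
  · intro p hp
    rcases List.mem_cons.1 hp with rfl | hp
    · exact ha
    · exact hM1 p hp
  · rw [vl, List.nodup_cons, List.nodup_cons]
    refine ⟨?_, ?_, hM2⟩
    · rw [List.mem_cons, not_or]
      refine ⟨ha.ne, fun h => ?_⟩
      have := (hM3 x).1 h
      simp at this
    · intro h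
      have := (hM3 y).1 h
      simp at this
  · intro z
    rw [vl, List.mem_cons, List.mem_cons, hM3]
    simp only [Finset.mem_sdiff, Finset.mem_insert, Finset.mem_singleton, not_or]
    constructor
    · rintro (rfl | rfl | h)
      · exact hx
      · exact hy
      · exact h.1
    · intro h
      by_cases g1 : z = x
      · exact Or.inl g1
      · by_cases g2 : z = y
        · exact Or.inr (Or.inl g2)
        · exact Or.inr (Or.inr ⟨h, g1, g2⟩)

end BASM

theorem specBAS : SpecBAS.{u} := by
  intro V _ _ G hG W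
  by_cases hex : ∃ x ∈ W, ∃ y ∈ W, G.Adj x y ∧ Mt G (W \ {x, y})
  · obtain ⟨x₀, hx₀, y₀, hy₀, ha₀, hm₀⟩ := hex
    obtain ⟨M, -, hM1, hM2, hM3⟩ := BASM.list_of_pair G W x₀ y₀ hx₀ hy₀ ha₀ hm₀
    obtain ⟨d, hd⟩ := specOBS V G hG M hM1 hM2
    refine ⟨d, fun x hx y hy ha hm => ?_⟩
    obtain ⟨M', h0, h1, h2, h3⟩ := BASM.list_of_pair G W x y hx hy ha hm
    exact hd M' h1 ((List.perm_ext_iff_of_nodup h2 hM2).2 fun z => by rw [h3, hM3]) (x, y) h0
  · push Not at hex
    exact ⟨fun _ => true, fun x hx y hy ha hm => absurd hm (hex x hx y hy ha)⟩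

end Pool.Agent.Lib.MPded8ec.FC
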