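import Pool.Agent.Lib.MP_ded8ec_lc.FC.Spec

/-!
# FC, module BER: the easy direction of Tutte's theorem.
-/

set_option autoImplicit false

namespace Pool.Agent.Lib.MPded8ec.FC

open Pool.Agent.Lib.MPded8ec.SG

universe u

/-- Module BER. -/
theorem specBER (hM : SpecMTC.{u}) : SpecBER.{u} := by
  classical
  intro V _ G W S F hF hW
  obtain ⟨m, hm⟩ := hW
  have key : ∀ K ∈ F, ∃ x ∈ K, m x ∈ S := by
    intro K hK
    by_contra hno
    push Not at hno
    have hMt : Mt G K := by
      refine ⟨m, fun x hx => ?_⟩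
      obtain ⟨h1, h2, h3⟩ := hm x (hF.sub K hK hx)
      refine ⟨?_, h2, h3⟩
      rcases hF.nb K hK x hx (m x) h1 h3 with h | h
      · exact h
      · exact absurd h (hno x hx)
    have hev := hM.par V G K hMt
    have hod := hF.odd K hK
    exact (Nat.not_even_iff_odd.2 hod) hev
  rcases F.eq_empty_or_nonempty with hE | ⟨K0, hK0⟩
  · subst hE; simp
  have : Nonempty V := ⟨(key K0 hK0).choose⟩
  choose! f hfK hfS using key
  refine Finset.card_le_card_of_injOn (fun K => m (f K)) (fun K hK => hfS K hK) ?_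
  intro K hK L hL hKL
  have hK' : K ∈ F := hK
  have hL' : L ∈ F := hL
  have e1 := (hm (f K) (hF.sub K hK' (hfK K hK'))).2.1
  have e2 := (hm (f L) (hF.sub L hL' (hfK L hL'))).2.1
  have e3 : f K = f L := by
    rw [← e1, ← e2]
    exact congrArg m hKL
  by_contra hne
  have hd := hF.pw K hK' L hL' hne
  exact (Finset.disjoint_left.1 hd (hfK K hK')) (by rw [e3]; exact hfK L hL')

end Pool.Agent.Lib.MPded8ec.FC
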