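import Pool.Agent.Lib.MP_ded8ec_lc.FC.Spec

/-!
# CMP: components of `G - T`, and 4-connectedness
-/

set_option autoImplicit false

namespace Pool.Agent.Lib.MPded8ec.FC

open Pool.Agent.Lib.MPded8ec.SG

universe u

theorem specCMP : SpecCMP.{u} := by
  classical
  refine ⟨?_, ?_⟩
  · intro V _ _ G T x hxT
    let r : V → V → Prop := fun a b => G.Adj a b ∧ b ∉ T
    have hnotT : ∀ y, Relation.ReflTransGen r x y → y ∉ T := by
      intro y hy
      induction hy with
      | refl => exact hxT
      | tail _ h _ => exact h.2
    have hback : ∀ y, Relation.ReflTransGen r x y → Relation.ReflTransGen r y x := by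
      intro y hy
      induction hy with
      | refl => exact Relation.ReflTransGen.refl
      | @tail b c hb h ih =>
        exact Relation.ReflTransGen.head ⟨h.1.symm, hnotT b hb⟩ ih
    refine ⟨Finset.univ.filter fun y => Relation.ReflTransGen r x y, ?_, ⟨⟨x, ?_⟩, ?_⟩, ?_, ?_, ?_⟩
    · simp [Relation.ReflTransGen.refl]
    · simp [Relation.ReflTransGen.refl]
    · rintro A hA ⟨a, ha⟩ hcl
      refine Finset.Subset.antisymm hA ?_
      intro y hy
      have hy' : Relation.ReflTransGen r x y := by simpa using hy
      have ha' : Relation.ReflTransGen r x a := by simpa using hA ha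
      have hay : Relation.ReflTransGen r a y := (hback a ha').trans hy'
      have key : ∀ z, Relation.ReflTransGen r a z → z ∈ A := by
        intro z hz
        induction hz with
        | refl => exact ha
        | @tail b c hb h ih =>
          refine hcl b ih c ?_ h.1
          have : Relation.ReflTransGen r x c := (ha'.trans hb).tail h
          simpa using this
      exact key y hay
    · rw [Finset.disjoint_left]
      intro y hy
      exact hnotT y (by simpa using hy)
    · intro y hy z hyz
      by_cases hz : z ∈ T
      · exact Or.inr hz
      · left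
        have hy' : Relation.ReflTransGen r x y := by simpa using hy
        have : Relation.ReflTransGen r x z := hy'.tail ⟨hyz, hz⟩
        simpa using this
    · intro C hxC hC y hy
      have hy' : Relation.ReflTransGen r x y := by simpa using hy
      induction hy' with
      | refl => exact hxC
      | @tail b c hb h ih =>
        have hbC : b ∈ C := ih (by simpa using hb)
        exact (hC b hbC c h.1).resolve_right h.2
  · intro V _ _ G h4 T A hA hAT hcl x hxA hxT
    by_contra hlt
    obtain ⟨a, ha⟩ := hA
    have hc := h4.2 T (by omega)
    have haT : a ∈ ((T : Set V)ᶜ) := fun h => Finset.disjoint_left.1 hAT ha h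
    have hxT' : x ∈ ((T : Set V)ᶜ) := fun h => hxT h
    obtain ⟨w⟩ := hc.preconnected ⟨a, haT⟩ ⟨x, hxT'⟩
    have key : ∀ (p q : ((T : Set V)ᶜ : Set V)), (G.induce ((T : Set V)ᶜ)).Walk p q →
        (p : V) ∈ A → (q : V) ∈ A := by
      intro p q w
      induction w with
      | nil => exact id
      | @cons p q s h w ih =>
        intro hp
        refine ih ?_
        have h' : G.Adj (p : V) (q : V) := h
        exact (hcl _ hp _ h').resolve_right (fun hT => q.2 hT)
    exact hxA (key _ _ w ha)

end Pool.Agent.Lib.MPded8ec.FC
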