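import Pool.Agent.Lib.MP_ded8ec_lc.FC.Spec

/-!
# ENL: enlarging a good triple (specification `SpecENL`), helper86.
-/

set_option autoImplicit false

namespace Pool.Agent.Lib.MPded8ec.FC

open Pool.Agent.Lib.MPded8ec.SG

universe u

theorem specENL (h : SpecCMP.{u}) : SpecENL.{u} := by
  intro V _ _ G h4 T K0 F hO T' F' hF hd hdk hne hc
  obtain ⟨x, hx⟩ := hO.good.con.1
  have hxT : x ∉ T' := Finset.disjoint_left.1 hd hx
  obtain ⟨K', hxK, hcn, hdT, hnb, hmin⟩ := h.cmp V G T' x hxT
  have hsub : K0 ⊆ K' := by
    have hA : K0 ∩ K' = K0 := by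
      apply hO.good.con.2 _ Finset.inter_subset_left
      · exact ⟨x, Finset.mem_inter.2 ⟨hx, hxK⟩⟩
      · intro z hz y hy hzy
        rw [Finset.mem_inter] at hz ⊢
        refine ⟨hy, ?_⟩
        rcases hnb z hz.2 y hzy with h1 | h1
        · exact h1
        · exact absurd h1 (Finset.disjoint_left.1 hd hy)
    intro y hy
    rw [← hA] at hy
    exact (Finset.mem_inter.1 hy).2
  have hg : Good G T' K' F' := by
    refine ⟨hcn, hdT, hnb, hF, ?_, hc, ?_⟩
    · intro K hK
      have hC : K' ⊆ Finset.univ \ (K ∪ T') := by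
        apply hmin
        · simp only [Finset.mem_sdiff, Finset.mem_univ, true_and, Finset.mem_union, not_or]
          exact ⟨fun hxK => Finset.disjoint_left.1 (hdk K hK) hxK hx, hxT⟩
        · intro y hy z hyz
          simp only [Finset.mem_sdiff, Finset.mem_univ, true_and, Finset.mem_union, not_or] at hy ⊢
          by_cases hzT : z ∈ T'
          · exact Or.inr hzT
          · left
            refine ⟨fun hzK => ?_, hzT⟩
            rcases hF.nb K hK z hzK y (Finset.mem_univ _) hyz.symm with h1 | h1
            · exact hy.1 h1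
            · exact hy.2 h1
      rw [Finset.disjoint_left]
      intro y hy hy'
      have := hC hy'
      simp only [Finset.mem_sdiff, Finset.mem_univ, true_and, Finset.mem_union, not_or] at this
      exact this.1 hy
    · obtain ⟨K, hK⟩ := hne
      have hKne : K.Nonempty := by
        rw [← Finset.card_pos]
        exact (hF.odd K hK).pos
      refine h.four V G h4 T' K hKne (hF.dis K hK) ?_ x ?_ hxT
      · intro y hy z hyz
        exact hF.nb K hK y hy z (Finset.mem_univ _) hyz
      · intro hxK
        exact Finset.disjoint_left.1 (hdk K hK) hxK hx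
  have hK : K0 = K' := Finset.eq_of_subset_of_card_le hsub (hO.max T' K' F' hg)
  subst hK
  exact ⟨hnb, hO.min T' F' hg⟩

end Pool.Agent.Lib.MPded8ec.FC
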