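import Pool.Agent.Lib.MP_ded8ec_lc.FC.Spec
import Pool.Agent.Lib.MP_ded8ec_lc.SG.WKL

/-! # 4-connected Seymour graphs (MP_ded8ec_lc), module EVT: an even path between two elements of `A` -/

set_option autoImplicit false

namespace Pool.Agent.Lib.MPded8ec.FC

open Pool.Agent.Lib.MPded8ec.SG

universe u

namespace EVTM

/-- From a vertex with a neighbour in the connected set `K` one can reach all of `K`. -/
theorem reach {V : Type u} (G : SimpleGraph V) (K : Finset V) (hK : Cn G K)
    (a x : V) (hx : x ∈ K) (hxa : G.Adj x a) (y : V) (hy : y ∈ K) :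
    ∃ l : List V, (∀ z ∈ l, z ∈ K) ∧ Wk G.Adj a l y := by
  classical
  have hB := hK.2 (K.filter fun y => ∃ l : List V, (∀ z ∈ l, z ∈ K) ∧ Wk G.Adj a l y)
    (Finset.filter_subset _ _)
    ⟨x, Finset.mem_filter.2 ⟨hx, [], fun z hz => absurd hz List.not_mem_nil, hxa.symm⟩⟩ ?_
  · rw [← hB] at hy
    exact (Finset.mem_filter.1 hy).2
  · intro u hu v hv huv
    obtain ⟨huK, l, hl, hw⟩ := Finset.mem_filter.1 hu
    refine Finset.mem_filter.2 ⟨hv, l ++ [u], ?_, ?_⟩
    · intro z hz
      rcases List.mem_append.1 hz with hz | hz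
      · exact hl z hz
      · rw [List.mem_singleton.1 hz]
        exact huK
    · exact (specWKL.app V G.Adj a u v l []).2 ⟨hw, huv⟩

/-- The first entry into `p`. -/
theorem entry {V : Type u} (r : V → V → Prop) (p : List V) (l : List V) :
    ∀ (a w : V), w ∈ p → Wk r a l w →
      ∃ (l' : List V) (w' : V), w' ∈ p ∧ Wk r a l' w' ∧ (∀ z ∈ l', z ∈ l) ∧ (∀ z ∈ l', z ∉ p) ∧
        l'.Nodup := by
  induction l with
  | nil =>
    intro a w hw h
    exact ⟨[], w, hw, h, fun z hz => hz, fun z hz => absurd hz List.not_mem_nil, List.nodup_nil⟩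
  | cons y l ih =>
    intro a w hw h
    by_cases hy : y ∈ p
    · exact ⟨[], y, hy, h.1, fun z hz => absurd hz List.not_mem_nil,
        fun z hz => absurd hz List.not_mem_nil, List.nodup_nil⟩
    · obtain ⟨l', w', h1, h2, h3, h4, h5⟩ := ih y w hw h.2
      by_cases hyl : y ∈ l'
      · obtain ⟨s, t, hst⟩ := List.append_of_mem hyl
        subst hst
        have hsub : ∀ z ∈ y :: t, z ∈ s ++ y :: t := fun z hz => List.mem_append_right s hz
        refine ⟨y :: t, w', h1, ⟨h.1, ((specWKL.app V r y y w' s t).1 h2).2⟩, ?_, ?_, ?_⟩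
        · intro z hz
          exact List.mem_cons_of_mem y (h3 z (hsub z hz))
        · intro z hz
          exact h4 z (hsub z hz)
        · exact h5.sublist (List.sublist_append_right s (y :: t))
      · refine ⟨y :: l', w', h1, ⟨h.1, h2⟩, ?_, ?_, List.nodup_cons.2 ⟨hyl, h5⟩⟩
        · intro z hz
          rcases List.mem_cons.1 hz with hz | hz
          · exact hz ▸ List.mem_cons_self
          · exact List.mem_cons_of_mem y (h3 z hz)
        · intro z hz
          rcases List.mem_cons.1 hz with hz | hz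
          · exact hz ▸ hy
          · exact h4 z hz

/-- A path with an odd number of interior vertices gives the claim. -/
theorem fin (hP : SpecPTH.{u}) {V : Type u} [DecidableEq V] (G : SimpleGraph V) (K A : Finset V)
    (hAK : Disjoint A K) (a b : V) (ha : a ∈ A) (hb : b ∈ A) (hab : a ≠ b) (l : List V)
    (hl : ∀ z ∈ l, z ∈ K) (hn : l.Nodup) (hw : Wk G.Adj a l b) (ho : Odd l.length) :
    ∃ a ∈ A, ∃ c ∈ A, a ≠ c ∧ ∃ D ⊆ K, Mt G (insert a D) ∧ Mt G (insert c D) := by
  have hal : a ∉ l := fun h => Finset.disjoint_left.1 hAK ha (hl a h)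
  have hbl : b ∉ l := fun h => Finset.disjoint_left.1 hAK hb (hl b h)
  have hnd : (a :: (l ++ [b])).Nodup := by
    rw [List.nodup_cons]
    constructor
    · intro h
      rcases List.mem_append.1 h with h | h
      · exact hal h
      · exact hab (List.mem_singleton.1 h)
    · rw [List.nodup_append]
      refine ⟨hn, List.nodup_singleton b, ?_⟩
      intro x hx y hy hxy
      rw [List.mem_singleton.1 hy] at hxy
      exact hbl (hxy ▸ hx)
  refine ⟨a, ha, b, hb, hab, l.toFinset, ?_, ?_, ?_⟩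
  · intro z hz
    exact hl z (List.mem_toFinset.1 hz)
  · have h := hP.lft V G a b l hw hnd ho
    rw [List.toFinset_cons] at h
    exact h
  · have h := hP.rgt V G a b l hw hnd ho
    have he : (l ++ [b]).toFinset = insert b l.toFinset := by
      ext z
      simp
    rw [he] at h
    exact h

end EVTM

theorem specEVT (hP : SpecPTH.{u}) : SpecEVT.{u} := by
  intro V _ _ G K0 A hK hA hAK hnb
  obtain ⟨a₁, a₂, a₃, h₁, h₂, h₃, h₁₂, h₁₃, h₂₃⟩ := Finset.two_lt_card_iff.1 hA
  obtain ⟨x₁, hx₁, hxa₁⟩ := hnb a₁ h₁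
  obtain ⟨x₂, hx₂, hxa₂⟩ := hnb a₂ h₂
  obtain ⟨x₃, hx₃, hxa₃⟩ := hnb a₃ h₃
  have hsy : ∀ x y, G.Adj x y → G.Adj y x := fun x y h => h.symm
  -- the path `p`
  obtain ⟨l, hl, hw⟩ := EVTM.reach G K0 hK a₁ x₁ hx₁ hxa₁ x₂ hx₂
  obtain ⟨p, hp0, hpl, hpn, hpw⟩ := specWKL.short V G.Adj a₁ a₂ (l ++ [x₂]) (by simp)
    ((specWKL.app V G.Adj a₁ x₂ a₂ l []).2 ⟨hw, hxa₂⟩)
  have hpK : ∀ z ∈ p, z ∈ K0 := by
    intro z hz
    rcases List.mem_append.1 (hpl z hz) with h | h
    · exact hl z h
    · rw [List.mem_singleton.1 h]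
      exact hx₂
  -- the path `q`
  obtain ⟨y, hy⟩ := List.exists_mem_of_ne_nil p hp0
  obtain ⟨m, hm, hmw⟩ := EVTM.reach G K0 hK a₃ x₃ hx₃ hxa₃ y (hpK y hy)
  obtain ⟨q, w, hwp, hqw, hqm, hqp, hqn⟩ := EVTM.entry G.Adj p m a₃ y hy hmw
  have hqK : ∀ z ∈ q, z ∈ K0 := fun z hz => hm z (hqm z hz)
  obtain ⟨p₁, p₂, hpp⟩ := List.append_of_mem hwp
  subst hpp
  obtain ⟨hw₁, hw₂⟩ := (specWKL.app V G.Adj a₁ w a₂ p₁ p₂).1 hpw
  have hwr : Wk G.Adj w q.reverse a₃ := specWKL.rev V G.Adj hsy a₃ w q hqw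
  have hwK : w ∈ K0 := hpK w hwp
  have hp₁ : ∀ z ∈ p₁, z ∈ p₁ ++ w :: p₂ := fun z hz => List.mem_append_left _ hz
  have hp₂ : ∀ z ∈ p₂, z ∈ p₁ ++ w :: p₂ :=
    fun z hz => List.mem_append_right p₁ (List.mem_cons_of_mem w hz)
  have hn0 := hpn
  rw [List.nodup_append, List.nodup_cons] at hn0
  obtain ⟨hn₁, ⟨hwn₂, hn₂⟩, hn₃⟩ := hn0
  have hwn₁ : w ∉ p₁ := fun h => hn₃ w h w List.mem_cons_self rfl
  have hwq : w ∉ q := fun h => hqp w h hwp
  rcases Nat.even_or_odd p₁.length with e₁ | e₁ <;> rcases Nat.even_or_odd p₂.length with e₂ | e₂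
    <;> rcases Nat.even_or_odd q.length with e₃ | e₃
  all_goals first
    | exact EVTM.fin hP G K0 A hAK a₁ a₂ h₁ h₂ h₁₂ (p₁ ++ w :: p₂) hpK hpn hpw (by
        rw [List.length_append, List.length_cons]
        grind)
    | exact EVTM.fin hP G K0 A hAK a₁ a₃ h₁ h₃ h₁₃ (p₁ ++ w :: q.reverse) (by
          intro z hz
          rcases List.mem_append.1 hz with h | h
          · exact hpK z (hp₁ z h)
          · rcases List.mem_cons.1 h with h | h
            · rw [h]
              exact hwK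
            · exact hqK z (List.mem_reverse.1 h)) (by
          rw [List.nodup_append, List.nodup_cons]
          refine ⟨hn₁, ⟨fun h => hwq (List.mem_reverse.1 h), List.nodup_reverse.2 hqn⟩, ?_⟩
          intro x hx y hy hxy
          rcases List.mem_cons.1 hy with h | h
          · exact hwn₁ (h ▸ hxy ▸ hx)
          · exact hqp y (List.mem_reverse.1 h) (hp₁ y (hxy ▸ hx)))
        ((specWKL.app V G.Adj a₁ w a₃ p₁ q.reverse).2 ⟨hw₁, hwr⟩) (by
        rw [List.length_append, List.length_cons, List.length_reverse]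
        grind)
    | exact EVTM.fin hP G K0 A hAK a₃ a₂ h₃ h₂ h₂₃.symm (q ++ w :: p₂) (by
          intro z hz
          rcases List.mem_append.1 hz with h | h
          · exact hqK z h
          · rcases List.mem_cons.1 h with h | h
            · rw [h]
              exact hwK
            · exact hpK z (hp₂ z h)) (by
          rw [List.nodup_append, List.nodup_cons]
          refine ⟨hqn, ⟨hwn₂, hn₂⟩, ?_⟩
          intro x hx y hy hxy
          rcases List.mem_cons.1 hy with h | h
          · exact hwq (h ▸ hxy ▸ hx)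
          · exact hqp x hx (hp₂ x (hxy ▸ h)))
        ((specWKL.app V G.Adj a₃ w a₂ q p₂).2 ⟨hqw, hw₂⟩) (by
        rw [List.length_append, List.length_cons]
        grind)

end Pool.Agent.Lib.MPded8ec.FC
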