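import Pool.Agent.Lib.MP_ded8ec_lc.FC.Spec

/-!
# 4-connected Seymour graphs (MP_ded8ec_lc), module FCR: the sets in `F` are factor-critical
-/

set_option autoImplicit false

namespace Pool.Agent.Lib.MPded8ec.FC

universe u

namespace FCRM

open Finset

/-- the new family -/
lemma fam {V : Type u} [Fintype V] [DecidableEq V] {G : SimpleGraph V} {T S K : Finset V}
    {F F₁ : Finset (Finset V)} {x : V} (hF : Fam G univ T F) (hK : K ∈ F) (hS : S ⊆ K \ {x})
    (hx : x ∈ K) (hF₁ : Fam G (K \ {x}) S F₁) :
    Fam G univ (T ∪ insert x S) (F.erase K ∪ F₁) := by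
  have hSK : insert x S ⊆ K := by
    intro y hy
    rcases mem_insert.1 hy with rfl | hy
    · exact hx
    · exact (mem_sdiff.1 (hS hy)).1
  have hLK : ∀ L ∈ F₁, L ⊆ K := fun L hL y hy => (mem_sdiff.1 (hF₁.sub L hL hy)).1
  have hEK : ∀ L ∈ F.erase K, Disjoint L K := fun L hL =>
    hF.pw L (mem_of_mem_erase hL) K hK (ne_of_mem_erase hL)
  refine ⟨fun L _ => subset_univ _, ?_, ?_, ?_, ?_⟩
  · intro L hL
    rcases mem_union.1 hL with hL | hL
    · exact hF.odd L (mem_of_mem_erase hL)
    · exact hF₁.odd L hL
  · intro L hL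
    rw [disjoint_union_right]
    rcases mem_union.1 hL with hL | hL
    · exact ⟨hF.dis L (mem_of_mem_erase hL), (hEK L hL).mono_right hSK⟩
    · refine ⟨(hF.dis K hK).mono_left (hLK L hL), ?_⟩
      rw [disjoint_insert_right]
      refine ⟨fun h => ?_, hF₁.dis L hL⟩
      have := mem_sdiff.1 (hF₁.sub L hL h)
      exact this.2 (mem_singleton_self x)
  · intro L hL M hM hne
    rcases mem_union.1 hL with hL | hL
    · rcases mem_union.1 hM with hM | hM
      · exact hF.pw L (mem_of_mem_erase hL) M (mem_of_mem_erase hM) hne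
      · exact (hEK L hL).mono_right (hLK M hM)
    · rcases mem_union.1 hM with hM | hM
      · exact ((hEK M hM).mono_right (hLK L hL)).symm
      · exact hF₁.pw L hL M hM hne
  · intro L hL z hz y _ hzy
    rcases mem_union.1 hL with hL | hL
    · rcases hF.nb L (mem_of_mem_erase hL) z hz y (mem_univ _) hzy with h | h
      · exact Or.inl h
      · exact Or.inr (mem_union_left _ h)
    · rcases hF.nb K hK z (hLK L hL hz) y (mem_univ _) hzy with h | h
      · by_cases hyx : y = x
        · subst hyx
          exact Or.inr (mem_union_right _ (mem_insert_self _ _))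
        · have hy : y ∈ K \ {x} := by
            rw [mem_sdiff, mem_singleton]
            exact ⟨h, hyx⟩
          rcases hF₁.nb L hL z hz y hy hzy with h' | h'
          · exact Or.inl h'
          · exact Or.inr (mem_union_right _ (mem_insert_of_mem h'))
      · exact Or.inr (mem_union_left _ h)

end FCRM

open Finset in
/-- **FCR** -/
theorem specFCR (hTUT : SpecTUT.{u}) (hENL : SpecENL.{u}) : SpecFCR.{u} := by
  intro V _ _ G hG T K0 F hO K hK x hx
  by_contra hM
  have hg := hO.good
  have hF := hg.fam
  have hcx : (K \ {x}).card + 1 = K.card := by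
    rw [sdiff_singleton_eq_erase]
    exact card_erase_add_one hx
  have hev : Even (K \ {x}).card := by
    have h1 := hF.odd K hK
    rw [← hcx] at h1
    rcases Nat.even_or_odd (K \ {x}).card with h | h
    · exact h
    · exfalso
      have h2 := h.add_one
      exact (Nat.not_even_iff_odd.2 h1) h2
  obtain ⟨S, F₁, hS, hF₁, hc⟩ := hTUT V G (K \ {x}) hev hM
  have hfam := FCRM.fam hF hK hS hx hF₁
  have hSK : insert x S ⊆ K := by
    intro y hy
    rcases mem_insert.1 hy with rfl | hy
    · exact hx
    · exact (mem_sdiff.1 (hS hy)).1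
  have hLK : ∀ L ∈ F₁, L ⊆ K := fun L hL y hy => (mem_sdiff.1 (hF₁.sub L hL hy)).1
  have hKK0 : Disjoint K K0 := hg.dk K hK
  have hne : F₁.Nonempty := by
    rw [← card_pos]
    omega
  have hdisF : Disjoint (F.erase K) F₁ := by
    rw [disjoint_left]
    intro L hL hL'
    have h1 : Disjoint L K := hF.pw L (mem_of_mem_erase hL) K hK (ne_of_mem_erase hL)
    have h2 : L = ∅ := by
      rw [← disjoint_self_iff_empty]
      exact h1.mono_right (hLK L hL')
    have h3 := hF₁.odd L hL'
    rw [h2] at h3
    simp at h3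
  have hcardF : (F.erase K ∪ F₁).card + 1 = F.card + F₁.card := by
    rw [card_union_of_disjoint hdisF]
    have := card_erase_add_one hK
    omega
  have hcardT : (T ∪ insert x S).card ≤ T.card + (S.card + 1) :=
    (card_union_le _ _).trans (Nat.add_le_add_left (card_insert_le _ _) _)
  have hnum := hg.num
  have h1 := (hENL V G hG T K0 F hO (T ∪ insert x S) (F.erase K ∪ F₁) hfam
    (by
      rw [disjoint_union_right]
      exact ⟨hg.dis, (hKK0.mono_left hSK).symm⟩)
    (by
      intro L hL
      rcases mem_union.1 hL with hL | hL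
      · exact hg.dk L (mem_of_mem_erase hL)
      · exact hKK0.mono_left (hLK L hL))
    (hne.mono subset_union_right) (by omega)).2
  rw [sum_union hdisF, ← add_sum_erase F _ hK] at h1
  have h2 : ∑ L ∈ F₁, L.card ≤ (K \ {x}).card := by
    have h3 : (F₁.biUnion id).card = ∑ L ∈ F₁, L.card := by
      rw [card_biUnion]
      · rfl
      · intro L hL M hM hLM
        exact hF₁.pw L hL M hM hLM
    rw [← h3]
    refine card_le_card ?_
    intro y hy
    obtain ⟨L, hL, hyL⟩ := mem_biUnion.1 hy
    exact hF₁.sub L hL hyL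
  omega

end Pool.Agent.Lib.MPded8ec.FC
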