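import Pool.Agent.Lib.MP_ded8ec_lc.FC.Spec
import Pool.Agent.Lib.MP_ded8ec_lc.SG.Main

/-!
# 4-connected Seymour graphs (MP_ded8ec_lc), module FIN (helper9)
-/

set_option autoImplicit false

namespace Pool.Agent.Lib.MPded8ec.FC

open Pool.Agent.Lib.MPded8ec.SG

universe u

theorem specFIN (hBAS : SpecBAS.{u}) (hOPT : SpecOPT.{u}) (hINI : SpecINI.{u})
    (hHUB : SpecHUB.{u}) (hTWO : SpecTWO.{u}) (hMEN : SpecMEN.{u}) (hTRG : SpecTRG.{u}) :
    SpecFIN.{u} := by
  classical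
  intro V _ G hG
  constructor
  · intro hs
    have hb : BAL G := hBAS V G hs
    rcases hINI V G hG hb with h | h
    · exact h
    · obtain ⟨T, K0, F, hO⟩ := hOPT V G h
      have hH := hHUB V G hG hb T K0 F hO
      have hR : 4 ≤ (T ∪ F.biUnion id).card :=
        hH.four.trans (Finset.card_le_card Finset.subset_union_left)
      rcases mDIC V G hG (T ∪ F.biUnion id) (fun x => decide (x ∈ F.biUnion id)) hR with
        ⟨a, l, b, a', l', b', h1⟩ | h1 | ⟨κ, x, y, z, h1⟩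
      · exact absurd h1 (hTWO V G hb T (F.biUnion id) hH a b a' b' l l')
      · exact h1
      · obtain ⟨t₁, t₂, t₃, L₁, L₂, L₃, g1, g2, g3, g4, g5, g6⟩ :=
          hMEN V G hG T (F.biUnion id) hH κ x y z h1
        exact (hTRG V G hb T (F.biUnion id) hH (κ x) x y z h1.a₁₂ h1.a₁₃ h1.a₂₃ t₁ t₂ t₃
          L₁ L₂ L₃ g1 g2 g3 g4 g5 g6).elim
  · intro h
    exact mAPX V G h

end Pool.Agent.Lib.MPded8ec.FC
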