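import Pool.Agent.Lib.MP_ded8ec_lc.FC.Spec
import Mathlib.Combinatorics.Hall.Basic

/-!
# 4-connected Seymour graphs: module HAL (helper63)
-/

set_option autoImplicit false

namespace Pool.Agent.Lib.MPded8ec.FC

universe u

theorem specHAL : SpecHAL.{u} := by
  intro V _ G T F hS X hX Z hZ
  classical
  have hne : Nonempty V := by
    have h1 := hS.eq
    have h2 : T.Nonempty := by
      rw [← Finset.card_pos]
      omega
    exact ⟨h2.choose⟩
  let N : {K : Finset V // K ∈ X} → Finset V := fun K =>
    T.filter (fun t => t ∉ Z ∧ ∃ x ∈ K.1, G.Adj x t)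
  have hall : ∀ s : Finset {K : Finset V // K ∈ X}, s.card ≤ (s.biUnion N).card := by
    intro s
    have hYc : (s.image Subtype.val).card = s.card :=
      Finset.card_image_of_injective s Subtype.val_injective
    have hYX : s.image Subtype.val ⊆ X := by
      intro K hK
      obtain ⟨K', -, rfl⟩ := Finset.mem_image.1 hK
      exact K'.2
    have hsub : Nb G T (s.image Subtype.val) \ Z ⊆ s.biUnion N := by
      intro t ht
      rw [Finset.mem_sdiff] at ht
      obtain ⟨ht1, ht2⟩ := ht
      unfold Nb at ht1
      rw [Finset.mem_filter] at ht1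
      obtain ⟨h3, K, hK, x, hx, hadj⟩ := ht1
      obtain ⟨K', hK', rfl⟩ := Finset.mem_image.1 hK
      exact Finset.mem_biUnion.2 ⟨K', hK', Finset.mem_filter.2 ⟨h3, ht2, x, hx, hadj⟩⟩
    have h1 := Finset.card_le_card hsub
    have h2 : (Nb G T (s.image Subtype.val)).card - Z.card ≤
        (Nb G T (s.image Subtype.val) \ Z).card := Finset.le_card_sdiff Z _
    rcases Finset.eq_empty_or_nonempty (s.image Subtype.val) with h0 | h0
    · rw [← hYc, h0]
      exact Nat.zero_le _
    · by_cases hF : s.image Subtype.val = F
      · have hXF : X = F := Finset.Subset.antisymm hX (hF ▸ hYX)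
        have hZ2 : Z.card ≤ 2 := by
          rcases hZ with h | h
          · exact h
          · exact absurd hXF h.2
        rw [hF, hS.all, hS.eq] at h2
        rw [hF] at h1 hYc
        rw [hS.all] at h1
        omega
      · have h3 := hS.sur _ (hYX.trans hX) h0 hF
        have hZ3 : Z.card ≤ 3 := by
          rcases hZ with h | h
          · omega
          · exact h.1
        omega
  obtain ⟨f, hf, hfN⟩ := (Finset.all_card_le_biUnion_card_iff_exists_injective N).1 hall
  refine ⟨fun K => if h : K ∈ X then f ⟨K, h⟩ else Classical.arbitrary V, ?_, ?_⟩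
  · intro K hK L hL h
    have hK' : K ∈ X := hK
    have hL' : L ∈ X := hL
    simp only [hK', hL', dif_pos] at h
    have := hf h
    exact congrArg Subtype.val this
  · intro K hK
    simp only [hK, dif_pos]
    have h := hfN ⟨K, hK⟩
    rw [Finset.mem_filter] at h
    exact ⟨h.1, h.2.1, h.2.2⟩

end Pool.Agent.Lib.MPded8ec.FC
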