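import Pool.Agent.Lib.MP_ded8ec_lc.FC.Spec

/-! # Module HUB of FC (MP_ded8ec_lc): the extremal triple gives a hub -/

set_option autoImplicit false

namespace Pool.Agent.Lib.MPded8ec.FC

open Pool.Agent.Lib.MPded8ec.SG

universe u

namespace HUBM

variable {V : Type u} [DecidableEq V]

lemma mem_bi {F : Finset (Finset V)} (h1 : ∀ K ∈ F, K.card = 1) (x : V) :
    x ∈ F.biUnion id ↔ {x} ∈ F := by
  rw [Finset.mem_biUnion]
  constructor
  · rintro ⟨K, hK, hx⟩
    obtain ⟨y, rfl⟩ := Finset.card_eq_one.1 (h1 K hK)
    have : x = y := by simpa using hx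
    subst this
    exact hK
  · intro h
    exact ⟨{x}, h, by simp⟩

lemma con {G : SimpleGraph V} {T : Finset V} {F : Finset (Finset V)} (hS : Sur G T F)
    (h1 : ∀ K ∈ F, K.card = 1) (d : V → Bool)
    (hd : ∀ i ∈ F.biUnion id, ∀ t ∈ T, G.Adj i t → d i ≠ d t) :
    ∀ a ∈ T, ∀ b ∈ T, d a = d b := by
  classical
  let X : Bool → Finset (Finset V) := fun v => F.filter (fun K => ∃ x ∈ K, d x = v)
  have hX : ∀ v K, K ∈ X v ↔ K ∈ F ∧ ∃ x ∈ K, d x = v := fun v K => by
    simp only [X, Finset.mem_filter]
  have hN : ∀ v, ∀ t ∈ Nb G T (X v), t ∈ T ∧ d t ≠ v := by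
    intro v t ht
    unfold Nb at ht
    rw [Finset.mem_filter] at ht
    obtain ⟨htT, K, hK, x, hx, hxt⟩ := ht
    obtain ⟨hKF, y, hy, hyv⟩ := (hX v K).1 hK
    obtain ⟨z, rfl⟩ := Finset.card_eq_one.1 (h1 K hKF)
    have hxz : x = z := by simpa using hx
    have hyz : y = z := by simpa using hy
    subst hxz
    subst hyz
    refine ⟨htT, fun h => ?_⟩
    exact hd y ((mem_bi h1 y).2 hKF) t htT hxt (by rw [hyv, h])
  have hall : ∀ v, X v = F → ∀ a ∈ T, ∀ b ∈ T, d a = d b := by
    intro v hv a ha b hb
    have h2 : ∀ t ∈ T, d t ≠ v := by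
      intro t ht
      have : t ∈ Nb G T (X v) := by
        rw [hv, hS.all]
        exact ht
      exact (hN v t this).2
    have ha' := h2 a ha
    have hb' := h2 b hb
    revert ha' hb'
    cases d a <;> cases d b <;> cases v <;> simp
  by_cases ht : X true = F
  · exact hall true ht
  by_cases hf : X false = F
  · exact hall false hf
  exfalso
  have hun : ∀ K ∈ F, K ∈ X true ∨ K ∈ X false := by
    intro K hK
    obtain ⟨z, rfl⟩ := Finset.card_eq_one.1 (h1 K hK)
    cases hz : d z with
    | true => exact Or.inl ((hX _ _).2 ⟨hK, z, by simp, hz⟩)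
    | false => exact Or.inr ((hX _ _).2 ⟨hK, z, by simp, hz⟩)
  have hsub : ∀ v, X v ⊆ F := fun v => Finset.filter_subset _ _
  have hne : ∀ v, X v ≠ F → (X (!v)).Nonempty := by
    intro v hv
    by_contra h
    rw [Finset.not_nonempty_iff_eq_empty] at h
    apply hv
    refine Finset.Subset.antisymm (hsub v) ?_
    intro K hK
    rcases hun K hK with h2 | h2
    · cases v with
      | true => exact h2
      | false =>
        simp only [Bool.not_false] at h
        rw [h] at h2
        simp at h2
    · cases v with
      | false => exact h2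
      | true =>
        simp only [Bool.not_true] at h
        rw [h] at h2
        simp at h2
  have n1 : (X false).Nonempty := by simpa using hne true ht
  have n2 : (X true).Nonempty := by simpa using hne false hf
  have c1 := hS.sur (X false) (hsub _) n1 hf
  have c2 := hS.sur (X true) (hsub _) n2 ht
  have hdis : Disjoint (Nb G T (X false)) (Nb G T (X true)) := by
    rw [Finset.disjoint_left]
    intro t h3 h4
    have e3 := (hN _ _ h3).2
    have e4 := (hN _ _ h4).2
    revert e3 e4
    cases d t <;> simp
  have c3 : (Nb G T (X false)).card + (Nb G T (X true)).card ≤ T.card := by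
    rw [← Finset.card_union_of_disjoint hdis]
    apply Finset.card_le_card
    intro t h3
    rcases Finset.mem_union.1 h3 with h4 | h4
    · exact (hN _ _ h4).1
    · exact (hN _ _ h4).1
  have c4 : F.card ≤ (X false).card + (X true).card := by
    calc F.card ≤ (X false ∪ X true).card := by
          apply Finset.card_le_card
          intro K hK
          rcases hun K hK with h2 | h2
          · exact Finset.mem_union_right _ h2
          · exact Finset.mem_union_left _ h2
      _ ≤ _ := Finset.card_union_le _ _
  have c5 := hS.eq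
  omega

end HUBM

open HUBM

theorem specHUB (hFCR : SpecFCR.{u}) (hSUR : SpecSUR.{u}) (hEXP : SpecEXP.{u})
    (hSNG : SpecSNG.{u}) : SpecHUB.{u} := by
  intro V _ _ G hc hb T K0 F hO
  have hF := hFCR V G hc T K0 F hO
  have hS := hSUR V G hc T K0 F hO
  have hfam := hO.good.fam
  have h1 := hSNG V G hc hb T K0 F hO
  obtain ⟨e1, e2⟩ := hEXP V G T F hS hfam hF
  have hI : ∀ x, x ∈ F.biUnion id ↔ {x} ∈ F := mem_bi h1
  have hTI : ∀ x ∈ T, {x} ∉ F := by
    intro x hx h
    have := hfam.dis {x} h
    rw [Finset.disjoint_left] at this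
    exact this (by simp) hx
  refine ⟨?_, ?_, hO.good.four, ?_, ?_, con hS h1⟩
  · rw [Finset.disjoint_left]
    intro x hx h
    exact hTI x hx ((hI x).1 h)
  · intro x hx y hxy
    rcases hfam.nb {x} ((hI x).1 hx) x (by simp) y (Finset.mem_univ _) hxy with h | h
    · have : y = x := by simpa using h
      subst this
      exact absurd hxy (G.loopless.irrefl _)
    · exact h
  · intro a ha b hb' hab
    have h2 := e1 a ha b hb' hab
    have h3 : (T ∪ F.biUnion id) \ {a, b} = (T \ {a, b}) ∪ F.biUnion id := by
      ext x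
      rw [Finset.mem_sdiff, Finset.mem_union, Finset.mem_union, Finset.mem_sdiff, hI]
      constructor
      · rintro ⟨h4 | h4, h5⟩
        · exact Or.inl ⟨h4, h5⟩
        · exact Or.inr h4
      · rintro (⟨h4, h5⟩ | h4)
        · exact ⟨Or.inl h4, h5⟩
        · refine ⟨Or.inr h4, fun h5 => ?_⟩
          rcases Finset.mem_insert.1 h5 with h6 | h6
          · subst h6
            exact hTI _ ha h4
          · have h7 : x = b := by simpa using h6
            subst h7
            exact hTI _ hb' h4
    rw [h3]
    exact h2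
  · intro i hi t ht hit a ha b hb' hab hat hbt
    have hi' := (hI i).1 hi
    have h2 := e2 {i} hi' t ht a ha b hb' hab hat hbt
    have hE : ∀ x, x ∈ (F.erase {i}).biUnion id ↔ x ≠ i ∧ {x} ∈ F := by
      intro x
      rw [mem_bi (fun K hK => h1 K (Finset.mem_of_mem_erase hK)), Finset.mem_erase]
      constructor
      · rintro ⟨h4, h5⟩
        exact ⟨fun h => h4 (by rw [h]), h5⟩
      · rintro ⟨h4, h5⟩
        exact ⟨fun h => h4 (Finset.singleton_injective h), h5⟩
    have h3 : (T ∪ F.biUnion id) \ {i, t, a, b} =
        (T \ {t, a, b}) ∪ (F.erase {i}).biUnion id := by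
      ext x
      rw [Finset.mem_sdiff, Finset.mem_union, Finset.mem_union, Finset.mem_sdiff, hI, hE]
      constructor
      · rintro ⟨h4, h5⟩
        rw [Finset.mem_insert, not_or] at h5
        rcases h4 with h4 | h4
        · exact Or.inl ⟨h4, h5.2⟩
        · exact Or.inr ⟨h5.1, h4⟩
      · rintro (⟨h4, h5⟩ | ⟨h4, h5⟩)
        · refine ⟨Or.inl h4, fun h6 => ?_⟩
          rcases Finset.mem_insert.1 h6 with h7 | h7
          · subst h7
            exact hTI _ h4 hi'
          · exact h5 h7
        · refine ⟨Or.inr h5, fun h6 => ?_⟩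
          rcases Finset.mem_insert.1 h6 with h7 | h7
          · exact h4 h7
          rcases Finset.mem_insert.1 h7 with h8 | h8
          · subst h8
            exact hTI _ ht h5
          rcases Finset.mem_insert.1 h8 with h9 | h9
          · subst h9
            exact hTI _ ha h5
          · have h10 : x = b := by simpa using h9
            subst h10
            exact hTI _ hb' h5
    rw [h3]
    exact h2

end Pool.Agent.Lib.MPded8ec.FC
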