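import Pool.Agent.Lib.MP_ded8ec_lc.FC.Spec

set_option autoImplicit false

namespace Pool.Agent.Lib.MPded8ec.FC

open Pool.Agent.Lib.MPded8ec.SG

universe u

/-- A set `W` of even size which contains all vertices different from `v₀`. -/
lemma ini_W {V : Type u} [Fintype V] [DecidableEq V] (hV : 5 ≤ Fintype.card V) :
    ∃ (v₀ : V) (W : Finset V), Even W.card ∧ ∀ x, x ≠ v₀ → x ∈ W := by
  classical
  have hne : 0 < Fintype.card V := by omega
  obtain ⟨v₀⟩ := Fintype.card_pos_iff.mp hne
  by_cases he : Even (Fintype.card V)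
  · exact ⟨v₀, Finset.univ, by simpa [Finset.card_univ] using he, fun x _ => Finset.mem_univ x⟩
  · refine ⟨v₀, Finset.univ.erase v₀, ?_, fun x hx => Finset.mem_erase.mpr ⟨hx, Finset.mem_univ x⟩⟩
    rw [Finset.card_erase_of_mem (Finset.mem_univ v₀), Finset.card_univ]
    have ho : Odd (Fintype.card V) := Nat.not_even_iff_odd.mp he
    exact Nat.Odd.sub_odd ho odd_one

theorem specINI (hT : SpecTUT.{u}) (hC : SpecCMP.{u}) : SpecINI.{u} := by
  intro V _ _ G hG hB
  obtain ⟨v₀, W, hWe, hW⟩ := ini_W (V := V) hG.1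
  by_cases ha : ∀ u ∈ W, ∀ v ∈ W, G.Adj u v → Mt G (W \ {u, v})
  · left
    obtain ⟨d, hd⟩ := hB W
    exact ⟨v₀, d, fun x y hx hy hxy => hd x (hW x hx) y (hW y hy) hxy (ha x (hW x hx) y (hW y hy) hxy)⟩
  · right
    push Not at ha
    obtain ⟨u, hu, v, hv, huv, hM⟩ := ha
    have hne : u ≠ v := huv.ne
    have hsub : ({u, v} : Finset V) ⊆ W := by
      intro x hx
      rcases Finset.mem_insert.mp hx with rfl | hx
      · exact hu
      · rw [Finset.mem_singleton.mp hx]; exact hv
    have hev : Even (W \ {u, v}).card := by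
      rw [Finset.card_sdiff_of_subset hsub, Finset.card_pair hne]
      exact (Nat.even_sub (by
        have := Finset.card_le_card hsub
        rwa [Finset.card_pair hne] at this)).mpr (by simp [hWe])
    obtain ⟨S, F₁, hS, hF, hcard⟩ := hT V G (W \ {u, v}) hev hM
    set T : Finset V := Finset.univ \ ((W \ {u, v}) \ S) with hTdef
    have memT : ∀ x, x ∈ T ↔ ¬ (x ∈ W \ {u, v} ∧ x ∉ S) := by
      intro x
      simp [hTdef]
    have hTc : T.card ≤ S.card + 3 := by
      have hs : T ⊆ insert v₀ (insert u (insert v S)) := by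
        intro x hx
        have := (memT x).mp hx
        by_contra hcon
        simp only [Finset.mem_insert, not_or] at hcon
        obtain ⟨h1, h2, h3, h4⟩ := hcon
        exact this ⟨Finset.mem_sdiff.mpr ⟨hW x h1, by simp [h2, h3]⟩, h4⟩
      refine (Finset.card_le_card hs).trans ?_
      have h1 := Finset.card_insert_le v₀ (insert u (insert v S))
      have h2 := Finset.card_insert_le u (insert v S)
      have h3 := Finset.card_insert_le v S
      omega
    have hdT : ∀ K ∈ F₁, Disjoint K T := by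
      intro K hK
      rw [Finset.disjoint_left]
      intro x hx hxT
      exact (memT x).mp hxT ⟨hF.sub K hK hx, Finset.disjoint_left.mp (hF.dis K hK) hx⟩
    have hnbT : ∀ K ∈ F₁, ∀ x ∈ K, ∀ y, G.Adj x y → y ∈ K ∨ y ∈ T := by
      intro K hK x hx y hxy
      by_cases hy : y ∈ T
      · exact Or.inr hy
      · have h1 : y ∈ W \ {u, v} ∧ y ∉ S := by
          by_contra hc
          exact hy ((memT y).mpr hc)
        rcases hF.nb K hK x hx y h1.1 hxy with h | h
        · exact Or.inl h
        · exact absurd h h1.2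
    have hne' : ∀ K ∈ F₁, K.Nonempty := by
      intro K hK
      rw [← Finset.card_pos]
      exact (hF.odd K hK).pos
    have hF1 : F₁.Nonempty := by
      rw [← Finset.card_pos]
      omega
    obtain ⟨K₁, hK₁⟩ := hF1
    obtain ⟨x₀, hx₀⟩ := hne' K₁ hK₁
    have hx₀T : x₀ ∉ T := Finset.disjoint_left.mp (hdT K₁ hK₁) hx₀
    obtain ⟨K0, hxK, hCn, hKT, hKnb, hmin⟩ := hC.cmp V G T x₀ hx₀T
    have hK01 : K0 ⊆ K₁ := hmin K₁ hx₀ (fun y hy z hyz => hnbT K₁ hK₁ y hy z hyz)
    have hcE : (F₁.erase K₁).card = F₁.card - 1 := Finset.card_erase_of_mem hK₁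
    have hE : (F₁.erase K₁).Nonempty := by
      rw [← Finset.card_pos, hcE]
      omega
    obtain ⟨A, hA⟩ := hE
    have hA1 : A ∈ F₁ := Finset.mem_of_mem_erase hA
    have hAK : A ≠ K₁ := Finset.ne_of_mem_erase hA
    refine ⟨T, K0, F₁.erase K₁, ?_⟩
    refine ⟨hCn, hKT, hKnb, ?_, ?_, ?_, ?_⟩
    · exact {
        sub := fun K _ => Finset.subset_univ K
        odd := fun K hK => hF.odd K (Finset.mem_of_mem_erase hK)
        dis := fun K hK => hdT K (Finset.mem_of_mem_erase hK)
        pw := fun K hK L hL h =>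
          hF.pw K (Finset.mem_of_mem_erase hK) L (Finset.mem_of_mem_erase hL) h
        nb := fun K hK x hx y _ hxy => hnbT K (Finset.mem_of_mem_erase hK) x hx y hxy }
    · intro K hK
      exact Finset.disjoint_of_subset_right hK01
        (hF.pw K (Finset.mem_of_mem_erase hK) K₁ hK₁ (Finset.ne_of_mem_erase hK))
    · omega
    · exact hC.four V G hG T A (hne' A hA1) (hdT A hA1)
        (fun y hy z hyz => hnbT A hA1 y hy z hyz) x₀
        (Finset.disjoint_right.mp (hF.pw A hA1 K₁ hK₁ hAK) hx₀) hx₀T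

end Pool.Agent.Lib.MPded8ec.FC
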