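import Pool.Agent.Lib.MP_ded8ec_lc.FC.Spec
import Pool.Agent.Lib.MP_ded8ec_lc.SG.FAN
import Pool.Agent.Lib.MP_ded8ec_lc.SG.WKL

/-!
# 4-connected Seymour graphs (MP_ded8ec_lc), module MEN (helper47)
-/

set_option autoImplicit false

namespace Pool.Agent.Lib.MPded8ec.FC

open Pool.Agent.Lib.MPded8ec.SG

universe u

namespace MENM

theorem wk_mono_mem {V : Type u} {r r' : V → V → Prop} :
    ∀ (a b : V) (l : List V), (∀ p ∈ a :: (l ++ [b]), ∀ q ∈ a :: (l ++ [b]), r p q → r' p q) →
      Wk r a l b → Wk r' a l b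
  | a, b, [], h, hw => h a (by simp) b (by simp) hw
  | a, b, x :: l, h, hw =>
    ⟨h a (by simp) x (by simp) hw.1,
      wk_mono_mem x b l (fun p hp q hq => h p (List.mem_cons_of_mem _ hp) q
        (List.mem_cons_of_mem _ hq)) hw.2⟩

theorem wk_pred {V : Type u} {r : V → V → Prop} :
    ∀ (a b : V) (l : List V), Wk r a l b → ∃ p ∈ a :: l, r p b
  | a, b, [], hw => ⟨a, by simp, hw⟩
  | a, b, x :: l, hw => by
    obtain ⟨p, hp, hr⟩ := wk_pred x b l hw.2
    exact ⟨p, List.mem_cons_of_mem _ hp, hr⟩

theorem notI {V : Type u} [DecidableEq V] {G : SimpleGraph V} {T I : Finset V} (hH : Hub G T I)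
    {κ : V → Bool} {x y z : V} (hT : Tri G (T ∪ I) (fun v => decide (v ∈ I)) κ x y z)
    {p q : V} (hpq : G.Adj p q) (hk : κ p = κ q) : p ∉ I := by
  intro hp
  have hq : q ∈ T := hH.nb p hp q hpq
  have hqI : q ∉ I := Finset.disjoint_left.1 hH.dis hq
  have h1 := hT.col p (Finset.mem_union_right _ hp)
  have h2 := hT.col q (Finset.mem_union_left _ hq)
  rw [hk, h2] at h1
  simp [hp, hqI] at h1

theorem leg {V : Type u} [Fintype V] [DecidableEq V] (hMTC : SpecMTC.{u}) (hPTH : SpecPTH.{u})
    {G : SimpleGraph V} {T I : Finset V} (hH : Hub G T I) {κ : V → Bool} {x y z : V}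
    (hT : Tri G (T ∪ I) (fun v => decide (v ∈ I)) κ x y z) {s t : V} {P : Finset (Sym2 V)}
    (hs : s = x ∨ s = y ∨ s = z) (hsI : s ∉ I) (hks : κ s = κ x) (ht : t ∈ T)
    (hP : DL.IsPth G s t P)
    (hA : ∀ w ∈ insert s (DL.vs P), (w = x ∨ w = y ∨ w = z) → w = s)
    (hB : ∀ w ∈ insert s (DL.vs P), w ∈ T → w = t) :
    ∃ L : Finset V, Leg G T I (κ x) s t L ∧ L ⊆ insert s (DL.vs P) := by
  have htI : t ∉ I := Finset.disjoint_left.1 hH.dis ht
  have hkt : κ t = false := by
    have := hT.col t (Finset.mem_union_left _ ht)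
    simpa [htI] using this
  rcases eq_or_ne s t with rfl | hst
  · refine ⟨{s}, ⟨by simp, by simp, ht, fun w hw _ => by simpa using hw, fun w hw => ?_, fun _ => ?_,
      fun h => ?_⟩, by simp⟩
    · rw [Finset.mem_singleton] at hw
      rw [hw]
      exact hsI
    · rw [Finset.sdiff_self]
      exact ⟨hMTC.emp V G, hMTC.emp V G⟩
    · rw [← hks, hkt] at h
      exact absurd h (by simp)
  · obtain ⟨l, hnd, hwk, hlP⟩ := FANM.list_of_pth hP hst
    have hsub : (s :: (l ++ [t])).toFinset ⊆ insert s (DL.vs P) := by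
      intro w hw
      rw [List.mem_toFinset, List.mem_cons, List.mem_append, List.mem_singleton] at hw
      rcases hw with rfl | hw | rfl
      · exact Finset.mem_insert_self _ _
      · exact Finset.mem_insert_of_mem (hlP w hw)
      · exact hP.end_mem
    have hnd' := hnd
    rw [List.nodup_cons, List.mem_append, List.mem_singleton, List.nodup_append] at hnd'
    obtain ⟨hns, hnl, -, hnt⟩ := hnd'
    have hsl : s ∉ l := fun h => hns (Or.inl h)
    have htl : t ∉ l := fun h => hnt t h t (by simp) rfl
    -- two-coloured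
    have hwk2 : Wk (fun p q => G.Adj p q ∧ κ p ≠ κ q) s l t := by
      refine wk_mono_mem s t l (fun p hp q hq hpq => ⟨hpq, fun hk => ?_⟩) hwk
      obtain ⟨h1, h2⟩ := hT.only p q hpq hk
      have e1 := hA p (hsub (List.mem_toFinset.2 hp)) h1
      have e2 := hA q (hsub (List.mem_toFinset.2 hq)) h2
      rw [e1, e2] at hpq
      exact G.loopless.irrefl _ hpq
    have hsg : sg κ s l t = false :=
      specWKL.ok V κ (fun p q => G.Adj p q ∧ κ p ≠ κ q) (fun p q h => h.2) s t l hwk2
    have hpar : κ x = decide (Even l.length) := by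
      unfold sg at hsg
      rw [hkt, hks] at hsg
      revert hsg
      cases κ x <;> cases decide (Even l.length) <;> simp
    refine ⟨(s :: (l ++ [t])).toFinset, ⟨by simp, by simp, ht, fun w hw hwT => hB w (hsub hw) hwT,
      ?_, ?_, ?_⟩, hsub⟩
    · intro w hw hwI
      rw [List.mem_toFinset, List.mem_cons, List.mem_append, List.mem_singleton] at hw
      rcases hw with rfl | hw | rfl
      · exact hsI hwI
      · obtain ⟨l₁, l₂, rfl⟩ := List.append_of_mem hw
        have h1 := ((specWKL.app V G.Adj s w t l₁ l₂).1 hwk).1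
        obtain ⟨p, hp, hpw⟩ := wk_pred s w l₁ h1
        have hpT : p ∈ T := hH.nb w hwI p hpw.symm
        have hpL : p ∈ (s :: ((l₁ ++ w :: l₂) ++ [t])).toFinset := by
          rw [List.mem_cons] at hp
          rcases hp with rfl | hp
          · simp
          · simp [hp]
        have hpt : p = t := hB p (hsub hpL) hpT
        rw [List.mem_cons] at hp
        rcases hp with hp | hp
        · exact hst (hp.symm.trans hpt)
        · exact htl (by rw [← hpt]; simp [hp])
      · exact htI hwI
    · intro hk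
      have hodd : Odd l.length := by
        rw [hk] at hpar
        have : ¬ Even l.length := fun h => by simp [h] at hpar
        exact Nat.not_even_iff_odd.1 this
      constructor
      · have h1 := hPTH.rgt V G s t l hwk hnd hodd
        have e : (s :: (l ++ [t])).toFinset \ {s} = (l ++ [t]).toFinset := by
          ext w
          simp only [Finset.mem_sdiff, List.mem_toFinset, List.mem_cons, Finset.mem_singleton,
            List.mem_append, List.not_mem_nil, or_false]
          constructor
          · rintro ⟨h | h, hw⟩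
            · exact absurd h hw
            · exact h
          · intro h
            refine ⟨Or.inr h, ?_⟩
            rintro rfl
            rcases h with h | h
            · exact hsl h
            · exact hst h
        rw [e]
        exact h1
      · have h1 := hPTH.lft V G s t l hwk hnd hodd
        have e : (s :: (l ++ [t])).toFinset \ {t} = (s :: l).toFinset := by
          ext w
          simp only [Finset.mem_sdiff, List.mem_toFinset, List.mem_cons, Finset.mem_singleton,
            List.mem_append, List.not_mem_nil, or_false]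
          constructor
          · rintro ⟨h | h | h, hw⟩
            · exact Or.inl h
            · exact Or.inr h
            · exact absurd h hw
          · rintro (h | h)
            · refine ⟨Or.inl h, ?_⟩
              rintro rfl
              exact hst h.symm
            · refine ⟨Or.inr (Or.inl h), ?_⟩
              rintro rfl
              exact htl h
        rw [e]
        exact h1
    · intro hk
      have heven : Even l.length := by
        rw [hk] at hpar
        simpa using hpar.symm
      refine ⟨hst, hPTH.full V G s t l hwk hnd heven, ?_⟩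
      have h1 := hPTH.inn V G s t l hwk hnd heven
      have e : (s :: (l ++ [t])).toFinset \ {s, t} = l.toFinset := by
        ext w
        simp only [Finset.mem_sdiff, List.mem_toFinset, List.mem_cons, Finset.mem_singleton,
          List.mem_append, List.not_mem_nil, or_false, Finset.mem_insert, not_or]
        constructor
        · rintro ⟨h | h | h, hw1, hw2⟩
          · exact absurd h hw1
          · exact h
          · exact absurd h hw2
        · intro h
          refine ⟨Or.inr (Or.inl h), ?_, ?_⟩
          · rintro rfl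
            exact hsl h
          · rintro rfl
            exact htl h
      rw [e]
      exact h1

end MENM

open MENM in
theorem specMEN (hMTC : SpecMTC.{u}) (hPTH : SpecPTH.{u}) : SpecMEN.{u} := by
  intro V _ _ G hG T I hH κ x y z hT
  have hxy : x ≠ y := hT.a₁₂.ne
  have hxz : x ≠ z := hT.a₁₃.ne
  have hyz : y ≠ z := hT.a₂₃.ne
  have hkyz : κ y = κ z := hT.k₁₂.symm.trans hT.k₁₃
  have hxI : x ∉ I := notI hH hT hT.a₁₂ hT.k₁₂
  have hyI : y ∉ I := notI hH hT hT.a₂₃ hkyz
  have hzI : z ∉ I := notI hH hT hT.a₂₃.symm hkyz.symm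
  obtain ⟨A, hA⟩ : ∃ A : Finset V, A = {x, y, z} := ⟨_, rfl⟩
  have hAm : ∀ w, w ∈ A ↔ w = x ∨ w = y ∨ w = z := by
    intro w
    rw [hA]
    simp
  have hAc : A.card = 3 := by
    rw [hA]
    exact Finset.card_eq_three.2 ⟨x, y, z, hxy, hxz, hyz, rfl⟩
  obtain ⟨a, b, P, ha, hb, hP, hdis, hea, heb⟩ := DL.menger' (G := G) (A := A) (B := T) (k := 3) (by
    intro S hS
    have h1 : ¬ A ⊆ S := fun h => by
      have := Finset.card_le_card h
      omega
    have h2 : ¬ T ⊆ S := fun h => by
      have := Finset.card_le_card h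
      have := hH.four
      omega
    obtain ⟨p, hpA, hpS⟩ := Finset.not_subset.1 h1
    obtain ⟨q, hqT, hqS⟩ := Finset.not_subset.1 h2
    exact ⟨p, hpA, q, hqT, hpS, hqS, FANM.reach_del (hG.2 S (by omega)) hpS hqS⟩)
  have hinj : Function.Injective a := by
    intro i j hij
    by_contra hne
    exact Finset.disjoint_left.1 (hdis i j hne) (Finset.mem_insert_self _ _)
      (hij ▸ Finset.mem_insert_self _ _)
  have hsurj : ∀ t ∈ A, ∃ i, a i = t := by
    have h1 : Finset.univ.image a = A := by
      apply Finset.eq_of_subset_of_card_le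
      · intro p hp
        obtain ⟨i, _, rfl⟩ := Finset.mem_image.1 hp
        exact ha i
      · rw [Finset.card_image_of_injective _ hinj]
        simp [hAc]
    intro t ht
    rw [← h1] at ht
    obtain ⟨i, _, hi⟩ := Finset.mem_image.1 ht
    exact ⟨i, hi⟩
  have hI : ∀ w, (w = x ∨ w = y ∨ w = z) → w ∉ I ∧ κ w = κ x := by
    rintro w (rfl | rfl | rfl)
    · exact ⟨hxI, rfl⟩
    · exact ⟨hyI, hT.k₁₂.symm⟩
    · exact ⟨hzI, hT.k₁₃.symm⟩
  have key : ∀ i, ∃ L : Finset V, Leg G T I (κ x) (a i) (b i) L ∧ L ⊆ insert (a i) (DL.vs (P i)) := by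
    intro i
    have h1 := (hAm _).1 (ha i)
    exact leg hMTC hPTH hH hT h1 (hI _ h1).1 (hI _ h1).2 (hb i) (hP i)
      (fun w hw hw' => hea i w hw ((hAm w).2 hw')) (fun w hw hw' => heb i w hw hw')
  choose L hL hLs using key
  obtain ⟨i₁, hi₁⟩ := hsurj x ((hAm _).2 (Or.inl rfl))
  obtain ⟨i₂, hi₂⟩ := hsurj y ((hAm _).2 (Or.inr (Or.inl rfl)))
  obtain ⟨i₃, hi₃⟩ := hsurj z ((hAm _).2 (Or.inr (Or.inr rfl)))
  have e12 : i₁ ≠ i₂ := fun h => hxy (by rw [← hi₁, ← hi₂, h])
  have e13 : i₁ ≠ i₃ := fun h => hxz (by rw [← hi₁, ← hi₃, h])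
  have e23 : i₂ ≠ i₃ := fun h => hyz (by rw [← hi₂, ← hi₃, h])
  have hd : ∀ i j, i ≠ j → Disjoint (L i) (L j) := fun i j hij =>
    Finset.disjoint_of_subset_left (hLs i) (Finset.disjoint_of_subset_right (hLs j) (hdis i j hij))
  refine ⟨b i₁, b i₂, b i₃, L i₁, L i₂, L i₃, ?_, ?_, ?_, hd _ _ e12, hd _ _ e13, hd _ _ e23⟩
  · have h := hL i₁
    rw [hi₁] at h
    exact h
  · have h := hL i₂
    rw [hi₂] at h
    exact h
  · have h := hL i₃
    rw [hi₃] at h
    exact h

end Pool.Agent.Lib.MPded8ec.FC
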