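import Pool.Agent.Lib.MP_ded8ec_lc.FC.Spec

/-!
# MTC: the calculus of perfect matchings (`SpecMTC`).
-/

set_option autoImplicit false

namespace Pool.Agent.Lib.MPded8ec.FC

universe u

theorem mtc_emp {V : Type u} (G : SimpleGraph V) : Mt G ∅ :=
  ⟨fun x => x, fun x hx => absurd hx (Finset.notMem_empty x)⟩

theorem mtc_pair {V : Type u} [DecidableEq V] (G : SimpleGraph V) (x y : V) (h : G.Adj x y) :
    Mt G {x, y} := by
  have hne : x ≠ y := h.ne
  refine ⟨fun z => if z = x then y else x, fun z hz => ?_⟩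
  rcases Finset.mem_insert.1 hz with h1 | h1
  · subst h1
    refine ⟨by simp, ?_, by simpa using h⟩
    simp [hne.symm]
  · have h2 : z = y := Finset.mem_singleton.1 h1
    subst h2
    refine ⟨by simp [hne.symm], ?_, ?_⟩
    · simp [hne.symm]
    · simpa [hne.symm] using h.symm

theorem mtc_uni {V : Type u} [DecidableEq V] (G : SimpleGraph V) (A B : Finset V)
    (hd : Disjoint A B) (hA : Mt G A) (hB : Mt G B) : Mt G (A ∪ B) := by
  obtain ⟨m, hm⟩ := hA
  obtain ⟨n, hn⟩ := hB
  refine ⟨fun x => if x ∈ A then m x else n x, fun x hx => ?_⟩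
  by_cases hxA : x ∈ A
  · obtain ⟨h1, h2, h3⟩ := hm x hxA
    simp only [hxA, if_true, h1]
    exact ⟨Finset.mem_union_left _ h1, h2, h3⟩
  · have hxB : x ∈ B := by
      rcases Finset.mem_union.1 hx with h | h
      · exact absurd h hxA
      · exact h
    obtain ⟨h1, h2, h3⟩ := hn x hxB
    have h4 : n x ∉ A := fun h => (Finset.disjoint_left.1 hd h) h1
    simp only [hxA, h4, if_false]
    exact ⟨Finset.mem_union_right _ h1, h2, h3⟩

theorem mtc_bun {V ι : Type u} [DecidableEq V] (G : SimpleGraph V) (s : Finset ι)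
    (A : ι → Finset V) (h1 : ∀ i ∈ s, Mt G (A i))
    (h2 : ∀ i ∈ s, ∀ j ∈ s, i ≠ j → Disjoint (A i) (A j)) : Mt G (s.biUnion A) := by
  classical
  revert h1 h2
  refine Finset.induction_on s ?_ ?_
  · intro _ _
    rw [Finset.biUnion_empty]
    exact mtc_emp G
  · intro a t hat ih h1 h2
    rw [Finset.biUnion_insert]
    refine mtc_uni G _ _ ?_ (h1 a (Finset.mem_insert_self a t)) ?_
    · rw [Finset.disjoint_biUnion_right]
      intro i hi
      refine h2 a (Finset.mem_insert_self a t) i (Finset.mem_insert_of_mem hi) ?_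
      intro h
      exact hat (h ▸ hi)
    · exact ih (fun i hi => h1 i (Finset.mem_insert_of_mem hi))
        (fun i hi j hj => h2 i (Finset.mem_insert_of_mem hi) j (Finset.mem_insert_of_mem hj))

theorem mtc_cut {V : Type u} [DecidableEq V] (G : SimpleGraph V) (W : Finset V) (hW : Mt G W)
    (x : V) (hx : x ∈ W) : ∃ y ∈ W, G.Adj x y ∧ Mt G (W \ {x, y}) := by
  obtain ⟨m, hm⟩ := hW
  obtain ⟨a1, a2, a3⟩ := hm x hx
  refine ⟨m x, a1, a3, m, fun z hz => ?_⟩
  rw [Finset.mem_sdiff, Finset.mem_insert, Finset.mem_singleton, not_or] at hz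
  obtain ⟨hzW, hzx, hzm⟩ := hz
  obtain ⟨b1, b2, b3⟩ := hm z hzW
  refine ⟨?_, b2, b3⟩
  rw [Finset.mem_sdiff, Finset.mem_insert, Finset.mem_singleton, not_or]
  refine ⟨b1, ?_, ?_⟩
  · intro h
    apply hzm
    rw [← b2, h]
  · intro h
    apply hzx
    rw [← b2, h, a2]

theorem mtc_par {V : Type u} (G : SimpleGraph V) :
    ∀ (n : ℕ) (W : Finset V), W.card = n → Mt G W → Even W.card := by
  classical
  intro n
  induction n using Nat.strong_induction_on with
  | _ n ih =>
    intro W hn hW
    rcases W.eq_empty_or_nonempty with h | ⟨x, hx⟩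
    · subst h
      simp
    · obtain ⟨y, hy, hxy, hM⟩ := mtc_cut G W hW x hx
      have hsub : ({x, y} : Finset V) ⊆ W := by
        intro z hz
        rcases Finset.mem_insert.1 hz with h | h
        · exact h ▸ hx
        · exact (Finset.mem_singleton.1 h) ▸ hy
      have hc2 : ({x, y} : Finset V).card = 2 := Finset.card_pair hxy.ne
      have hc : (W \ {x, y}).card + 2 = W.card := by
        have := Finset.card_sdiff_add_card_eq_card hsub
        rw [hc2] at this
        exact this
      have hlt : (W \ {x, y}).card < n := by omega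
      have he : Even (W \ {x, y}).card := ih _ hlt _ rfl hM
      rw [← hc]
      exact he.add (by decide)

theorem specMTC : SpecMTC.{u} where
  emp := fun V G => mtc_emp G
  pair := fun V _ G x y h => mtc_pair G x y h
  uni := fun V _ G A B hd hA hB => mtc_uni G A B hd hA hB
  bun := fun V ι _ G s A h1 h2 => mtc_bun G s A h1 h2
  par := fun V G W hW => mtc_par G W.card W rfl hW
  cut := fun V _ G W hW x hx => mtc_cut G W hW x hx
  mono := by
    intro V G H W h hW
    obtain ⟨m, hm⟩ := hW
    exact ⟨m, fun x hx => ⟨(hm x hx).1, (hm x hx).2.1, h x hx (m x) (hm x hx).1 (hm x hx).2.2⟩⟩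

end Pool.Agent.Lib.MPded8ec.FC
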