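import Pool.Agent.Lib.MP_ded8ec_lc.FC.Spec

/-!
# MP_ded8ec_lc, theorem FC, module NBP: a factor-critical graph with at least three vertices is not bipartite
-/

set_option autoImplicit false

namespace Pool.Agent.Lib.MPded8ec.FC

open Pool.Agent.Lib.MPded8ec.SG

universe u

namespace NBPM

/-- A perfect matching of a two-coloured graph matches the colour classes. -/
theorem card_eq {V : Type u} (G : SimpleGraph V) (W : Finset V) (d : V → Bool)
    (h : ∀ x ∈ W, ∀ y ∈ W, G.Adj x y → d x ≠ d y) (hm : Mt G W) :
    (W.filter fun x => d x = true).card = (W.filter fun x => d x = false).card := by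
  obtain ⟨m, hm⟩ := hm
  refine Finset.card_bij' (fun x _ => m x) (fun x _ => m x) ?_ ?_ ?_ ?_
  · intro x hx
    rw [Finset.mem_filter] at hx ⊢
    have h1 := hm x hx.1
    refine ⟨h1.1, ?_⟩
    have h2 := h x hx.1 (m x) h1.1 h1.2.2
    rw [hx.2] at h2
    cases h3 : d (m x)
    · rfl
    · exact absurd h3.symm h2
  · intro x hx
    rw [Finset.mem_filter] at hx ⊢
    have h1 := hm x hx.1
    refine ⟨h1.1, ?_⟩
    have h2 := h x hx.1 (m x) h1.1 h1.2.2
    rw [hx.2] at h2
    cases h3 : d (m x)
    · exact absurd h3.symm h2
    · rfl
  · intro x hx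
    exact (hm x (Finset.mem_filter.1 hx).1).2.1
  · intro x hx
    exact (hm x (Finset.mem_filter.1 hx).1).2.1

end NBPM

theorem specNBP : SpecNBP.{u} := by
  intro V _ G K hK hm d
  by_contra hc
  push Not at hc
  have hcol : ∀ x ∈ K, ∀ y ∈ K, G.Adj x y → d x ≠ d y := hc
  have key : ∀ x ∈ K, ((K \ {x}).filter fun y => d y = true).card
      = ((K \ {x}).filter fun y => d y = false).card := fun x hx =>
    NBPM.card_eq G (K \ {x}) d
      (fun a ha b hb => hcol a (Finset.mem_sdiff.1 ha).1 b (Finset.mem_sdiff.1 hb).1) (hm x hx)
  have hsum : (K.filter fun y => d y = true).card + (K.filter fun y => d y = false).card = K.card := by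
    have h1 := Finset.card_filter_add_card_filter_not (s := K) (fun y => d y = true)
    have h2 : (K.filter fun y => ¬ d y = true) = K.filter fun y => d y = false := by
      apply Finset.filter_congr
      intro y _
      simp
    rw [h2] at h1
    exact h1
  have ht : ∀ x ∈ K, d x = true →
      (K.filter fun y => d y = true).card = (K.filter fun y => d y = false).card + 1 := by
    intro x hx hdx
    have h1 := key x hx
    have h2 : (K \ {x}).filter (fun y => d y = true) = (K.filter fun y => d y = true).erase x := by
      ext y
      simp only [Finset.mem_filter, Finset.mem_sdiff, Finset.mem_singleton, Finset.mem_erase]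
      tauto
    have h3 : (K \ {x}).filter (fun y => d y = false) = K.filter fun y => d y = false := by
      ext y
      simp only [Finset.mem_filter, Finset.mem_sdiff, Finset.mem_singleton]
      constructor
      · rintro ⟨⟨h, -⟩, h'⟩
        exact ⟨h, h'⟩
      · rintro ⟨h, h'⟩
        refine ⟨⟨h, ?_⟩, h'⟩
        rintro rfl
        rw [hdx] at h'
        exact absurd h' (by simp)
    have hmem : x ∈ K.filter fun y => d y = true := Finset.mem_filter.2 ⟨hx, hdx⟩
    rw [h2, h3, Finset.card_erase_of_mem hmem] at h1
    have : 0 < (K.filter fun y => d y = true).card := Finset.card_pos.2 ⟨x, hmem⟩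
    omega
  have hf : ∀ x ∈ K, d x = false →
      (K.filter fun y => d y = false).card = (K.filter fun y => d y = true).card + 1 := by
    intro x hx hdx
    have h1 := key x hx
    have h2 : (K \ {x}).filter (fun y => d y = false) = (K.filter fun y => d y = false).erase x := by
      ext y
      simp only [Finset.mem_filter, Finset.mem_sdiff, Finset.mem_singleton, Finset.mem_erase]
      tauto
    have h3 : (K \ {x}).filter (fun y => d y = true) = K.filter fun y => d y = true := by
      ext y
      simp only [Finset.mem_filter, Finset.mem_sdiff, Finset.mem_singleton]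
      constructor
      · rintro ⟨⟨h, -⟩, h'⟩
        exact ⟨h, h'⟩
      · rintro ⟨h, h'⟩
        refine ⟨⟨h, ?_⟩, h'⟩
        rintro rfl
        rw [hdx] at h'
        exact absurd h' (by simp)
    have hmem : x ∈ K.filter fun y => d y = false := Finset.mem_filter.2 ⟨hx, hdx⟩
    rw [h2, h3, Finset.card_erase_of_mem hmem] at h1
    have : 0 < (K.filter fun y => d y = false).card := Finset.card_pos.2 ⟨x, hmem⟩
    omega
  rcases Nat.eq_zero_or_pos (K.filter fun y => d y = true).card with h0 | h0
  · obtain ⟨x, hx⟩ := Finset.card_pos.1 (by omega : 0 < (K.filter fun y => d y = false).card)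
    have := hf x (Finset.mem_filter.1 hx).1 (Finset.mem_filter.1 hx).2
    omega
  · obtain ⟨x, hx⟩ := Finset.card_pos.1 h0
    have h1 := ht x (Finset.mem_filter.1 hx).1 (Finset.mem_filter.1 hx).2
    obtain ⟨y, hy⟩ := Finset.card_pos.1 (by omega : 0 < (K.filter fun y => d y = false).card)
    have h2 := hf y (Finset.mem_filter.1 hy).1 (Finset.mem_filter.1 hy).2
    omega

end Pool.Agent.Lib.MPded8ec.FC
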