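import Pool.Agent.Lib.MP_ded8ec_lc.FC.Spec

/-!
# Module OPT: an optimal good triple exists
-/

set_option autoImplicit false

namespace Pool.Agent.Lib.MPded8ec.FC

open Pool.Agent.Lib.MPded8ec.SG

universe u

theorem specOPT : SpecOPT.{u} := by
  intro V _ G h
  classical
  -- maximal size of `K0`
  obtain ⟨n, ⟨T1, K1, F1, hg1, hn1⟩, hmax⟩ :
      ∃ n, (∃ (T K0 : Finset V) (F : Finset (Finset V)), Good G T K0 F ∧ K0.card = n) ∧
        ∀ m, (∃ (T K0 : Finset V) (F : Finset (Finset V)), Good G T K0 F ∧ K0.card = m) → m ≤ n := by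
    let P : ℕ → Prop := fun n => ∃ (T K0 : Finset V) (F : Finset (Finset V)),
      Good G T K0 F ∧ K0.card = n
    obtain ⟨T, K0, F, hg⟩ := h
    have hb : ∀ m, P m → m ≤ Fintype.card V := by
      rintro m ⟨_, K, _, _, rfl⟩
      exact Finset.card_le_univ K
    refine ⟨Nat.findGreatest P (Fintype.card V), ?_, ?_⟩
    · exact Nat.findGreatest_spec (P := P) (hb K0.card ⟨T, K0, F, hg, rfl⟩) ⟨T, K0, F, hg, rfl⟩
    · intro m hm
      exact Nat.le_findGreatest (hb m hm) hm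
  -- minimal sum among the good triples with `|K0| = n`
  let Q : ℕ → Prop := fun s => ∃ (T K0 : Finset V) (F : Finset (Finset V)),
    Good G T K0 F ∧ K0.card = n ∧ ∑ K ∈ F, K.card = s
  have hQ : ∃ s, Q s := ⟨_, T1, K1, F1, hg1, hn1, rfl⟩
  obtain ⟨T, K0, F, hg, hn, hs⟩ := Nat.find_spec hQ
  refine ⟨T, K0, F, hg, ?_, ?_⟩
  · intro T' K' F' hg'
    rw [hn]
    exact hmax _ ⟨T', K', F', hg', rfl⟩
  · intro T' F' hg'
    rw [hs]
    exact Nat.find_min' hQ ⟨T', K0, F', hg', hn, rfl⟩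

end Pool.Agent.Lib.MPded8ec.FC
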