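import Pool.Agent.Lib.MP_ded8ec_lc.FC.Spec

/-!
# MP_ded8ec_lc, FC, module PTH (helper58): matchings of paths
-/

set_option autoImplicit false

namespace Pool.Agent.Lib.MPded8ec.FC

open Pool.Agent.Lib.MPded8ec.SG

universe u

namespace PTHM

variable {V : Type u}

theorem chain_of_wk {r : V → V → Prop} : ∀ (l : List V) (a b : V), Wk r a l b →
    (a :: (l ++ [b])).IsChain r
  | [], a, b, h => by
    have h' : r a b := h
    simpa using h'
  | x :: l, a, b, h => by
    have h' : r a x ∧ Wk r x l b := h
    rw [List.cons_append, List.isChain_cons_cons]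
    exact ⟨h'.1, chain_of_wk l x b h'.2⟩

theorem wk_of_split {r : V → V → Prop} : ∀ (l : List V) (a b : V),
    (∀ (l₁ : List V) (x y : V) (l₂ : List V), a :: (l ++ [b]) = l₁ ++ x :: y :: l₂ → r x y) →
    Wk r a l b
  | [], a, b, h => h [] a b [] rfl
  | x :: l, a, b, h => by
    refine ⟨h [] a x (l ++ [b]) rfl, wk_of_split l x b fun l₁ u v l₂ e => ?_⟩
    refine h (a :: l₁) u v l₂ ?_
    rw [List.cons_append, List.cons_append, e]

variable [DecidableEq V] {G : SimpleGraph V}

theorem mt_list (hM : SpecMTC.{u}) : ∀ l : List V, l.Nodup → l.IsChain G.Adj → Even l.length →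
    Mt G l.toFinset
  | [], _, _, _ => by
    rw [List.toFinset_nil]
    exact hM.emp V G
  | [x], _, _, h => by
    exfalso
    simp at h
  | x :: y :: l, hn, hc, he => by
    rw [List.isChain_cons_cons] at hc
    have hc2 : l.IsChain G.Adj := hc.2.tail
    have hn2 : l.Nodup := (List.nodup_cons.1 (List.nodup_cons.1 hn).2).2
    have he2 : Even l.length := by
      rw [List.length_cons, List.length_cons, Nat.even_add_one, Nat.even_add_one, not_not] at he
      exact he
    have h1 := mt_list hM l hn2 hc2 he2
    have h2 := hM.pair V G x y hc.1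
    have hx : x ∉ l := fun h => (List.nodup_cons.1 hn).1 (List.mem_cons_of_mem _ h)
    have hy : y ∉ l := (List.nodup_cons.1 (List.nodup_cons.1 hn).2).1
    have hd : Disjoint ({x, y} : Finset V) l.toFinset := by
      rw [Finset.disjoint_left]
      intro z hz hz'
      rw [List.mem_toFinset] at hz'
      rw [Finset.mem_insert, Finset.mem_singleton] at hz
      rcases hz with rfl | rfl
      · exact hx hz'
      · exact hy hz'
    have h3 := hM.uni V G {x, y} l.toFinset hd h2 h1
    have e : (x :: y :: l).toFinset = ({x, y} : Finset V) ∪ l.toFinset := by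
      ext z
      simp
    rw [e]
    exact h3

/-- removal of two consecutive vertices at even distance from the ends -/
theorem mt_split (hM : SpecMTC.{u}) (l₁ : List V) (x y : V) (l₂ : List V)
    (hn : (l₁ ++ x :: y :: l₂).Nodup) (hc : (l₁ ++ x :: y :: l₂).IsChain G.Adj)
    (h1 : Even l₁.length) (h2 : Even l₂.length) :
    Mt G ((l₁ ++ x :: y :: l₂).toFinset \ {x, y}) := by
  obtain ⟨n1, n2, n3⟩ := List.nodup_append.1 hn
  have n4 := List.nodup_cons.1 n2
  have n5 := List.nodup_cons.1 n4.2
  have c1 : l₁.IsChain G.Adj := hc.left_of_append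
  have c2 : l₂.IsChain G.Adj := (hc.right_of_append).tail.tail
  have m1 := mt_list hM l₁ n1 c1 h1
  have m2 := mt_list hM l₂ n5.2 c2 h2
  have hx1 : x ∉ l₁ := fun h => n3 x h x (by simp) rfl
  have hy1 : y ∉ l₁ := fun h => n3 y h y (by simp) rfl
  have hx2 : x ∉ l₂ := fun h => n4.1 (List.mem_cons_of_mem _ h)
  have hy2 : y ∉ l₂ := n5.1
  have hd : Disjoint l₁.toFinset l₂.toFinset := by
    rw [Finset.disjoint_left]
    intro z hz hz'
    rw [List.mem_toFinset] at hz hz'
    exact n3 z hz z (by simp [hz']) rfl
  have m3 := hM.uni V G _ _ hd m1 m2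
  have e : (l₁ ++ x :: y :: l₂).toFinset \ {x, y} = l₁.toFinset ∪ l₂.toFinset := by
    ext z
    rw [Finset.mem_sdiff, List.mem_toFinset, Finset.mem_insert, Finset.mem_singleton,
      Finset.mem_union, List.mem_toFinset, List.mem_toFinset, List.mem_append, List.mem_cons,
      List.mem_cons]
    constructor
    · rintro ⟨h | h | h | h, h'⟩
      · exact Or.inl h
      · exact absurd (Or.inl h) h'
      · exact absurd (Or.inr h) h'
      · exact Or.inr h
    · rintro (h | h)
      · refine ⟨Or.inl h, ?_⟩
        rintro (rfl | rfl)
        · exact hx1 h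
        · exact hy1 h
      · refine ⟨Or.inr (Or.inr (Or.inr h)), ?_⟩
        rintro (rfl | rfl)
        · exact hx2 h
        · exact hy2 h
  rw [e]
  exact m3

end PTHM

open PTHM in
theorem specPTH (hM : SpecMTC.{u}) : SpecPTH.{u} where
  full := by
    intro V _ G a b l hw hn he
    refine mt_list hM _ hn (chain_of_wk l a b hw) ?_
    rw [List.length_cons, List.length_append, List.length_singleton, Nat.even_add_one,
      Nat.even_add_one, not_not]
    exact he
  inn := by
    intro V _ G a b l hw hn he
    have hc := chain_of_wk l a b hw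
    exact mt_list hM l (List.nodup_append.1 (List.nodup_cons.1 hn).2).1
      (hc.tail).left_of_append he
  lft := by
    intro V _ G a b l hw hn ho
    have hc := chain_of_wk l a b hw
    rw [← List.cons_append] at hc hn
    refine mt_list hM (a :: l) (List.nodup_append.1 hn).1 hc.left_of_append ?_
    rw [List.length_cons, Nat.even_add_one, Nat.not_even_iff_odd]
    exact ho
  rgt := by
    intro V _ G a b l hw hn ho
    have hc := chain_of_wk l a b hw
    refine mt_list hM (l ++ [b]) (List.nodup_cons.1 hn).2 hc.tail ?_
    rw [List.length_append, List.length_singleton, Nat.even_add_one, Nat.not_even_iff_odd]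
    exact ho
  edg := by
    intro V _ G a b l hw hn he
    have hc := chain_of_wk l a b hw
    refine wk_of_split l a b fun l₁ x y l₂ e => ?_
    have hadj : G.Adj x y := by
      have h1 := hc
      rw [e] at h1
      exact (List.isChain_cons_cons.1 h1.right_of_append).1
    refine ⟨hadj, ?_⟩
    have hlen : l.length + 2 = l₁.length + (l₂.length + 2) := by
      have := congrArg List.length e
      simpa [Nat.add_assoc] using this
    by_cases h1 : Even l₁.length
    · left
      have h2 : Even l₂.length := by
        have h3 : l.length = l₁.length + l₂.length := by omega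
        rw [h3, Nat.even_add] at he
        exact he.1 h1
      rw [e]
      refine ⟨by simp, by simp, ?_⟩
      rw [e] at hn hc
      exact mt_split hM l₁ x y l₂ hn hc h1 h2
    · right
      have h2 : ¬ Even l₂.length := by
        have h3 : l.length = l₁.length + l₂.length := by omega
        rw [h3, Nat.even_add] at he
        exact fun h => h1 (he.2 h)
      -- both lists are not empty
      rcases l₁ with _ | ⟨a', l₁⟩
      · exact absurd (by simp) h1
      rcases List.eq_nil_or_concat l₂ with rfl | ⟨l₂', b', rfl⟩
      · exact absurd (by simp) h2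
      have e1 : l ++ [b] = (l₁ ++ x :: y :: l₂') ++ [b'] := by
        have h3 := congrArg List.tail e
        simpa using h3
      have e2 : l = l₁ ++ x :: y :: l₂' := (List.append_inj' e1 rfl).1
      have hn' : (l₁ ++ x :: y :: l₂').Nodup := by
        rw [← e2]
        exact (List.nodup_append.1 (List.nodup_cons.1 hn).2).1
      have hc' : (l₁ ++ x :: y :: l₂').IsChain G.Adj := by
        rw [← e2]
        exact (hc.tail).left_of_append
      have h1' : Even l₁.length := by
        rw [List.length_cons, Nat.even_add_one, not_not] at h1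
        exact h1
      have h2' : Even l₂'.length := by
        rw [List.length_concat, Nat.even_add_one, not_not] at h2
        exact h2
      rw [e2]
      exact ⟨by simp, by simp, mt_split hM l₁ x y l₂' hn' hc' h1' h2'⟩

end Pool.Agent.Lib.MPded8ec.FC
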