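import Pool.Agent.Lib.MP_ded8ec_lc.FC.Spec

set_option autoImplicit false

namespace Pool.Agent.Lib.MPded8ec.FC

open Pool.Agent.Lib.MPded8ec.SG

universe u

namespace SNBM

/-- The auxiliary graph: the vertex `t` is joined exactly to the elements of `R`. -/
def Gx {V : Type u} (G : SimpleGraph V) (R : V → Prop) (t : V) (ht : ¬ R t) : SimpleGraph V where
  Adj x y := (G.Adj x y ∧ x ≠ t ∧ y ≠ t) ∨ (x = t ∧ R y) ∨ (y = t ∧ R x)
  symm := ⟨by
    rintro x y (⟨h, hx, hy⟩ | ⟨h, hy⟩ | ⟨h, hx⟩)
    · exact Or.inl ⟨h.symm, hy, hx⟩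
    · exact Or.inr (Or.inr ⟨h, hy⟩)
    · exact Or.inr (Or.inl ⟨h, hx⟩)⟩
  loopless := ⟨fun x h => by
    rcases h with h | h | h
    · exact G.loopless.irrefl _ h.1
    · exact ht (h.1 ▸ h.2)
    · exact ht (h.1 ▸ h.2)⟩

theorem adj1 {V : Type u} {G : SimpleGraph V} {R : V → Prop} {t : V} {ht : ¬ R t} {x y : V}
    (h : G.Adj x y) (hx : x ≠ t) (hy : y ≠ t) : (Gx G R t ht).Adj x y := Or.inl ⟨h, hx, hy⟩

theorem adj2 {V : Type u} {G : SimpleGraph V} {R : V → Prop} {t : V} {ht : ¬ R t} {x : V}
    (h : R x) : (Gx G R t ht).Adj x t := Or.inr (Or.inr ⟨rfl, h⟩)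

theorem adj3 {V : Type u} {G : SimpleGraph V} {R : V → Prop} {t : V} {ht : ¬ R t} {x y : V}
    (h : (Gx G R t ht).Adj x y) (hx : x ≠ t) (hy : y ≠ t) : G.Adj x y := by
  rcases h with h | h | h
  · exact h.1
  · exact absurd h.1 hx
  · exact absurd h.1 hy

theorem adj4 {V : Type u} {G : SimpleGraph V} {R : V → Prop} {t : V} {ht : ¬ R t} {x : V}
    (h : (Gx G R t ht).Adj t x) : R x := by
  rcases h with h | h | h
  · exact absurd rfl h.2.1
  · exact h.2
  · exact absurd h.2 ht

/-- at most one set of the family contains `t` -/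
theorem fcard {V : Type u} [DecidableEq V] {G : SimpleGraph V} {W S : Finset V}
    {F : Finset (Finset V)} (h : Fam G W S F) (t : V) :
    F.card ≤ (F.filter fun L => t ∉ L).card + 1 := by
  have h1 := Finset.card_filter_add_card_filter_not (s := F) (fun L => t ∈ L)
  have h2 : (F.filter fun L => t ∈ L).card ≤ 1 := by
    rw [Finset.card_le_one]
    intro A hA B hB
    rw [Finset.mem_filter] at hA hB
    by_contra hne
    exact (Finset.disjoint_left.1 (h.pw A hA.1 B hB.1 hne)) hA.2 hB.2
  omega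

end SNBM

open SNBM

theorem specSNB (hTUT : SpecTUT.{u}) (hBER : SpecBER.{u}) (hCMP : SpecCMP.{u})
    (hENL : SpecENL.{u}) : SpecSNB.{u} := by
  intro V _ _ G hG T K0 F hO K hK hfc t ht u v hu hv huv
  have hne : u ≠ v := huv.ne
  have htK : t ∉ K := fun h => (Finset.disjoint_left.1 (hO.good.fam.dis K hK)) h ht
  have hR0 : ¬ (t ∈ K ∧ ∃ s ∈ T, s ≠ t ∧ G.Adj t s) := fun h => htK h.1
  obtain ⟨R, hR⟩ : ∃ R : V → Prop, R = fun x => x ∈ K ∧ ∃ s ∈ T, s ≠ t ∧ G.Adj x s := ⟨_, rfl⟩
  have hRx : ∀ x, R x ↔ (x ∈ K ∧ ∃ s ∈ T, s ≠ t ∧ G.Adj x s) := fun x => by rw [hR]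
  have hRt : ¬ R t := fun h => htK ((hRx t).1 h).1
  obtain ⟨W, hWd⟩ : ∃ W : Finset V, W = (insert t K) \ {u, v} := ⟨_, rfl⟩
  have hW : ∀ w, w ∈ W ↔ (w = t ∨ w ∈ K) ∧ w ≠ u ∧ w ≠ v := by
    intro w
    simp only [hWd, Finset.mem_sdiff, Finset.mem_insert, Finset.mem_singleton, not_or]
  have hut : u ≠ t := fun h => htK (h ▸ hu)
  have hvt : v ≠ t := fun h => htK (h ▸ hv)
  have htW : t ∈ W := (hW t).2 ⟨Or.inl rfl, hut.symm, hvt.symm⟩
  have hWc : Even W.card := by
    have h1 : ({u, v} : Finset V) ⊆ insert t K := by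
      intro w
      simp only [Finset.mem_insert, Finset.mem_singleton]
      rintro (rfl | rfl)
      · exact Or.inr hu
      · exact Or.inr hv
    have h2 := Finset.card_sdiff_add_card_eq_card h1
    rw [← hWd, Finset.card_pair hne, Finset.card_insert_of_notMem htK] at h2
    obtain ⟨k, hk⟩ := hO.good.fam.odd K hK
    exact ⟨k, by omega⟩
  by_cases hm : Mt (Gx G R t hRt) W
  · obtain ⟨m, hm⟩ := hm
    obtain ⟨a1, a2, a3⟩ := hm t htW
    have a4 := (hRx _).1 (adj4 a3)
    refine ⟨m t, a4.1, ((hW _).1 a1).2.1, ((hW _).1 a1).2.2, a4.2, m, ?_⟩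
    intro y hy
    simp only [Finset.mem_sdiff, Finset.mem_insert, Finset.mem_singleton, not_or] at hy
    obtain ⟨hyK, hyx, hyu, hyv⟩ := hy
    have hyt : y ≠ t := fun h => htK (h ▸ hyK)
    obtain ⟨b1, b2, b3⟩ := hm y ((hW _).2 ⟨Or.inr hyK, hyu, hyv⟩)
    have c1 : m y ≠ t := by
      intro h
      apply hyx
      rw [← h, b2]
    have c2 : m y ≠ m t := by
      intro h
      apply hyt
      rw [← b2, h, a2]
    have c3 := (hW _).1 b1
    refine ⟨?_, b2, adj3 b3 hyt c1⟩
    simp only [Finset.mem_sdiff, Finset.mem_insert, Finset.mem_singleton, not_or]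
    exact ⟨c3.1.resolve_left c1, c2, c3.2.1, c3.2.2⟩
  exfalso
  obtain ⟨S, F₁, hS, hF, hc⟩ := hTUT V (Gx G R t hRt) W hWc hm
  have hLW : ∀ L ∈ F₁, ∀ w ∈ L, (w = t ∨ w ∈ K) ∧ w ≠ u ∧ w ≠ v := fun L hL w hw =>
    (hW w).1 (hF.sub L hL hw)
  have hLS : ∀ L ∈ F₁, ∀ w ∈ L, w ∉ S := fun L hL w hw => (Finset.disjoint_left.1 (hF.dis L hL)) hw
  have hSW : ∀ w ∈ S, (w = t ∨ w ∈ K) ∧ w ≠ u ∧ w ≠ v := fun w hw => (hW w).1 (hS hw)
  by_cases hts : t ∈ S
  · have hLt : ∀ L ∈ F₁, ∀ w ∈ L, w ≠ t := fun L hL w hw h => hLS L hL w hw (h ▸ hts)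
    have fB : Fam G (K \ {u}) (insert v (S.erase t)) F₁ := by
      refine ⟨?_, hF.odd, ?_, hF.pw, ?_⟩
      · intro L hL w hw
        rw [Finset.mem_sdiff, Finset.mem_singleton]
        exact ⟨(hLW L hL w hw).1.resolve_left (hLt L hL w hw), (hLW L hL w hw).2.1⟩
      · intro L hL
        rw [Finset.disjoint_left]
        intro w hw
        rw [Finset.mem_insert, Finset.mem_erase]
        rintro (h | h)
        · exact (hLW L hL w hw).2.2 h
        · exact hLS L hL w hw h.2
      · intro L hL x hx y hy hxy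
        rw [Finset.mem_sdiff, Finset.mem_singleton] at hy
        rw [Finset.mem_insert, Finset.mem_erase]
        have hyt : y ≠ t := fun h => htK (h ▸ hy.1)
        by_cases hyv : y = v
        · exact Or.inr (Or.inl hyv)
        · rcases hF.nb L hL x hx y ((hW y).2 ⟨Or.inr hy.1, hy.2, hyv⟩)
            (adj1 hxy (hLt L hL x hx) hyt) with h | h
          · exact Or.inl h
          · exact Or.inr (Or.inr ⟨hyt, h⟩)
    have h1 := hBER V G (K \ {u}) (insert v (S.erase t)) F₁ fB (hfc u hu)
    have h2 := Finset.card_insert_le v (S.erase t)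
    have h3 := Finset.card_erase_of_mem hts
    have h4 : 0 < S.card := Finset.card_pos.2 ⟨t, hts⟩
    omega
  · have h1 := fcard hF t
    have hL2 : ∀ L ∈ F₁.filter (fun L => t ∉ L), L ∈ F₁ ∧ t ∉ L := fun L hL => Finset.mem_filter.1 hL
    have hLK : ∀ L ∈ F₁.filter (fun L => t ∉ L), ∀ w ∈ L, w ∈ K := by
      intro L hL w hw
      refine ((hLW L (hL2 L hL).1 w hw).1).resolve_left ?_
      intro h
      exact (hL2 L hL).2 (h ▸ hw)
    have f2 : Fam G Finset.univ (insert u (insert v (insert t S))) (F₁.filter fun L => t ∉ L) := by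
      refine ⟨fun _ _ => Finset.subset_univ _, fun L hL => hF.odd L (hL2 L hL).1, ?_,
        fun A hA B hB => hF.pw A (hL2 A hA).1 B (hL2 B hB).1, ?_⟩
      · intro L hL
        rw [Finset.disjoint_left]
        intro w hw
        simp only [Finset.mem_insert, not_or]
        exact ⟨(hLW L (hL2 L hL).1 w hw).2.1, (hLW L (hL2 L hL).1 w hw).2.2,
          fun h => (hL2 L hL).2 (h ▸ hw), hLS L (hL2 L hL).1 w hw⟩
      · intro L hL x hx y _ hxy
        simp only [Finset.mem_insert]
        have hxK := hLK L hL x hx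
        have hxt : x ≠ t := fun h => htK (h ▸ hxK)
        rcases hO.good.fam.nb K hK x hxK y (Finset.mem_univ _) hxy with h | h
        · have hyt : y ≠ t := fun h' => htK (h' ▸ h)
          by_cases h5 : y = u
          · exact Or.inr (Or.inl h5)
          by_cases h6 : y = v
          · exact Or.inr (Or.inr (Or.inl h6))
          rcases hF.nb L (hL2 L hL).1 x hx y ((hW y).2 ⟨Or.inr h, h5, h6⟩) (adj1 hxy hxt hyt) with h7 | h7
          · exact Or.inl h7
          · exact Or.inr (Or.inr (Or.inr (Or.inr h7)))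
        · by_cases hyt : y = t
          · exact Or.inr (Or.inr (Or.inr (Or.inl hyt)))
          · exfalso
            have hx' : R x := (hRx x).2 ⟨hxK, y, h, hyt, hxy⟩
            rcases hF.nb L (hL2 L hL).1 x hx t htW (adj2 hx') with h7 | h7
            · exact (hL2 L hL).2 h7
            · exact hts h7
    have hK0T : ∀ w ∈ K0, w ∉ T := fun w hw => (Finset.disjoint_left.1 hO.good.dis) hw
    have hK0K : ∀ w ∈ K0, w ∉ K := fun w hw h => (Finset.disjoint_left.1 (hO.good.dk K hK)) h hw
    have hKT : ∀ w ∈ K, w ∉ T := fun w hw => (Finset.disjoint_left.1 (hO.good.fam.dis K hK)) hw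
    have hd : Disjoint K0 (insert u (insert v (insert t S))) := by
      rw [Finset.disjoint_left]
      intro w hw
      simp only [Finset.mem_insert, not_or]
      refine ⟨fun h => hK0K w hw (h ▸ hu), fun h => hK0K w hw (h ▸ hv), fun h => hK0T w hw (h ▸ ht), ?_⟩
      intro h
      rcases (hSW w h).1 with h' | h'
      · exact hK0T w hw (h' ▸ ht)
      · exact hK0K w hw h'
    have hcard : (insert u (insert v (insert t S))).card ≤ (F₁.filter fun L => t ∉ L).card + 2 := by
      have e1 := Finset.card_insert_le u (insert v (insert t S))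
      have e2 := Finset.card_insert_le v (insert t S)
      have e3 := Finset.card_insert_le t S
      omega
    have hnon : (F₁.filter fun L => t ∉ L).Nonempty := by
      rw [← Finset.card_pos]
      omega
    have key := (hENL V G hG T K0 F hO (insert u (insert v (insert t S))) (F₁.filter fun L => t ∉ L) f2
      hd (fun L hL => by
        rw [Finset.disjoint_left]
        intro w hw h
        exact hK0K w h (hLK L hL w hw)) hnon hcard).1
    have h4 := hCMP.four V G hG {t} K0 hO.good.con.1 (by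
        rw [Finset.disjoint_left]
        intro w hw h
        rw [Finset.mem_singleton] at h
        exact hK0T w hw (h ▸ ht)) (by
        intro y hy z hyz
        rw [Finset.mem_singleton]
        rcases hO.good.nb y hy z hyz with h | h
        · exact Or.inl h
        · rcases key y hy z hyz with h' | h'
          · exact Or.inl h'
          · right
            simp only [Finset.mem_insert] at h'
            rcases h' with h' | h' | h' | h'
            · exact absurd h (hKT z (h' ▸ hu))
            · exact absurd h (hKT z (h' ▸ hv))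
            · exact h'
            · rcases (hSW z h').1 with h'' | h''
              · exact h''
              · exact absurd h (hKT z h'')) u (fun h => hK0K u h hu) (by
        rw [Finset.mem_singleton]
        exact hut)
    rw [Finset.card_singleton] at h4
    omega

end Pool.Agent.Lib.MPded8ec.FC
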