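import Pool.Agent.Lib.MP_ded8ec_lc.FC.Spec

/-!
# MP_ded8ec_lc, FC, module SNG (helper16)
-/

set_option autoImplicit false

namespace Pool.Agent.Lib.MPded8ec.FC

open Pool.Agent.Lib.MPded8ec.SG

universe u

/-- **SNG**. -/
theorem specSNG (hMTC : SpecMTC.{u}) (hCMP : SpecCMP.{u}) (hFCR : SpecFCR.{u}) (hSUR : SpecSUR.{u})
    (hEVT : SpecEVT.{u}) (hNBP : SpecNBP.{u}) (hSNA : SpecSNA.{u}) (hSNB : SpecSNB.{u}) :
    SpecSNG.{u} := by
  classical
  intro V _ _ G hC hB T K0 F hO K hK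
  by_contra hne
  have hFam : Fam G Finset.univ T F := hO.good.fam
  have hodd := hFam.odd K hK
  have h3 : 3 ≤ K.card := by
    obtain ⟨r, hr⟩ := hodd
    omega
  have hfcr := hFCR V G hC T K0 F hO
  have hSur := hSUR V G hC T K0 F hO
  have hKne : K.Nonempty := Finset.card_pos.1 (by omega)
  obtain ⟨x0, hx0⟩ := hKne
  set A : Finset V := T.filter (fun y => ∃ x ∈ K0, G.Adj x y) with hA
  have hAT : ∀ y ∈ A, y ∈ T := fun y hy => (Finset.mem_filter.1 hy).1
  have hx0K0 : x0 ∉ K0 := fun h => Finset.disjoint_left.1 (hO.good.dk K hK) hx0 h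
  have hx0A : x0 ∉ A := fun h => Finset.disjoint_left.1 (hFam.dis K hK) hx0 (hAT x0 h)
  have h4 : 4 ≤ A.card := by
    refine hCMP.four V G hC A K0 hO.good.con.1 ?_ ?_ x0 hx0K0 hx0A
    · rw [Finset.disjoint_left]
      intro z hz hz2
      exact Finset.disjoint_left.1 hO.good.dis hz (hAT z hz2)
    · intro y hy z hz
      rcases hO.good.nb y hy z hz with h | h
      · exact Or.inl h
      · exact Or.inr (Finset.mem_filter.2 ⟨h, y, hy, hz⟩)
  obtain ⟨a, ha, c, hc, hac, D, hDK, hMa, hMc⟩ := hEVT V G K0 A hO.good.con (by omega)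
    (by
      rw [Finset.disjoint_left]
      intro z hz hz2
      exact Finset.disjoint_left.1 hO.good.dis hz2 (hAT z hz))
    (fun a ha => (Finset.mem_filter.1 ha).2)
  obtain ⟨t, ht, hta, htc⟩ : ∃ t ∈ T, t ≠ a ∧ t ≠ c := by
    have h5 : (T \ {a, c}).Nonempty := by
      rw [← Finset.card_pos]
      have h6 := Finset.le_card_sdiff ({a, c} : Finset V) T
      have h7 : ({a, c} : Finset V).card ≤ 2 := Finset.card_le_two
      have h8 := hO.good.four
      omega
    obtain ⟨t, ht⟩ := h5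
    rw [Finset.mem_sdiff, Finset.mem_insert, Finset.mem_singleton, not_or] at ht
    exact ⟨t, ht.1, ht.2.1, ht.2.2⟩
  obtain ⟨d, hd⟩ := hB (((T \ {t}) ∪ F.biUnion id) ∪ D)
  obtain ⟨u, hu, v, hv, huv, hduv⟩ := hNBP V G K h3 (hfcr K hK) d
  obtain ⟨x, hx, hxu, hxv, ⟨s, hs, hst, hxs⟩, hM1⟩ :=
    hSNB V G hC T K0 F hO K hK (hfcr K hK) t ht u v hu hv huv
  have hM2 := hSNA V G T F hSur hFam hfcr D
    (by
      rw [Finset.disjoint_left]
      intro z hz hz2
      exact Finset.disjoint_left.1 hO.good.dis (hDK hz) hz2)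
    (by
      intro L hL
      rw [Finset.disjoint_left]
      intro z hz hz2
      exact Finset.disjoint_left.1 (hO.good.dk L hL) hz2 (hDK hz))
    a c t (hAT a ha) (hAT c hc) ht hac hta htc hMa hMc K hK x s hx hs hst hxs
  have hKW : K ⊆ ((T \ {t}) ∪ F.biUnion id) ∪ D := by
    intro z hz
    refine Finset.mem_union_left _ (Finset.mem_union_right _ ?_)
    exact Finset.mem_biUnion.2 ⟨K, hK, hz⟩
  have hM3 := hMTC.uni V G _ _ (by
      rw [Finset.disjoint_left]
      intro z hz hz2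
      rw [Finset.mem_sdiff] at hz2
      rcases Finset.mem_insert.1 hz with h | h
      · exact hz2.2 (by rw [h]; simp)
      · exact (Finset.mem_sdiff.1 h).2 hz2.1) hM2 hM1
  have hE : insert x ((((T \ {t}) ∪ F.biUnion id) ∪ D) \ K) ∪ (K \ {x, u, v}) =
      (((T \ {t}) ∪ F.biUnion id) ∪ D) \ {u, v} := by
    generalize ((T \ {t}) ∪ F.biUnion id) ∪ D = W at hKW
    ext z
    simp only [Finset.mem_union, Finset.mem_insert, Finset.mem_sdiff, Finset.mem_singleton, not_or]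
    constructor
    · rintro ((h | h) | h)
      · rw [h]
        exact ⟨hKW hx, hxu, hxv⟩
      · exact ⟨h.1, fun h2 => h.2 (h2 ▸ hu), fun h2 => h.2 (h2 ▸ hv)⟩
      · exact ⟨hKW h.1, h.2.2.1, h.2.2.2⟩
    · intro h
      by_cases h5 : z ∈ K
      · by_cases h6 : z = x
        · exact Or.inl (Or.inl h6)
        · exact Or.inr ⟨h5, h6, h.2⟩
      · exact Or.inl (Or.inr ⟨h.1, h5⟩)
  rw [hE] at hM3
  exact hd u (hKW hu) v (hKW hv) huv hM3 hduv

end Pool.Agent.Lib.MPded8ec.FC
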