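import Pool.Agent.Lib.MP_ded8ec_lc.FC.Spec

/-!
# SUR: the surplus of the extremal family (MP_ded8ec_lc, FC)
-/

set_option autoImplicit false

namespace Pool.Agent.Lib.MPded8ec.FC

open Pool.Agent.Lib.MPded8ec.SG

universe u

theorem nb_subset {V : Type u} (G : SimpleGraph V) (T : Finset V) (X : Finset (Finset V)) :
    Nb G T X ⊆ T := by
  classical
  intro t ht
  unfold Nb at ht
  exact (Finset.mem_filter.mp ht).1

theorem mem_nb {V : Type u} (G : SimpleGraph V) (T : Finset V) (X : Finset (Finset V)) (t : V) :
    t ∈ Nb G T X ↔ t ∈ T ∧ ∃ K ∈ X, ∃ x ∈ K, G.Adj x t := by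
  classical
  unfold Nb
  rw [Finset.mem_filter]

theorem specSUR (h : SpecENL.{u}) : SpecSUR.{u} := by
  intro V _ _ G hG T K0 F hO
  have hfam := hO.good.fam
  have hsur : ∀ X ⊆ F, X.Nonempty → X ≠ F → X.card + 3 ≤ (Nb G T X).card := by
    intro X hX hne hXF
    by_contra hlt
    have hle : (Nb G T X).card ≤ X.card + 2 := by omega
    have hF' : Fam G Finset.univ (Nb G T X) X :=
      { sub := fun K _ => Finset.subset_univ K
        odd := fun K hK => hfam.odd K (hX hK)
        dis := fun K hK => Finset.disjoint_of_subset_right (nb_subset G T X) (hfam.dis K (hX hK))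
        pw := fun K hK L hL hKL => hfam.pw K (hX hK) L (hX hL) hKL
        nb := fun K hK x hx y hy hxy => by
          rcases hfam.nb K (hX hK) x hx y hy hxy with h1 | h1
          · exact Or.inl h1
          · exact Or.inr ((mem_nb G T X y).mpr ⟨h1, K, hK, x, hx, hxy⟩) }
    have hkey := (h V G hG T K0 F hO (Nb G T X) X hF'
      (Finset.disjoint_of_subset_right (nb_subset G T X) hO.good.dis)
      (fun K hK => hO.good.dk K (hX hK)) hne hle).2
    have hsplit : ∑ K ∈ F, K.card = ∑ K ∈ F \ X, K.card + ∑ K ∈ X, K.card :=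
      (Finset.sum_sdiff hX).symm
    have hex : ∃ K ∈ F, K ∉ X := by
      by_contra hcon
      push Not at hcon
      exact hXF (Finset.Subset.antisymm hX hcon)
    obtain ⟨K, hK, hKX⟩ := hex
    have hpos : 0 < K.card := (hfam.odd K hK).pos
    have hge : K.card ≤ ∑ L ∈ F \ X, L.card :=
      Finset.single_le_sum (f := fun L : Finset V => L.card) (fun L _ => Nat.zero_le _)
        (Finset.mem_sdiff.mpr ⟨hK, hKX⟩)
    omega
  have htwo : 2 ≤ F.card := by
    have h1 := hO.good.four
    have h2 := hO.good.num
    omega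
  obtain ⟨K, hK⟩ : F.Nonempty := Finset.card_pos.mp (by omega)
  have hcard : (F.erase K).card = F.card - 1 := Finset.card_erase_of_mem hK
  have hne : (F.erase K).Nonempty := Finset.card_pos.mp (by omega)
  have hneq : F.erase K ≠ F := by
    intro he
    have := congrArg Finset.card he
    omega
  have h3 := hsur (F.erase K) (Finset.erase_subset K F) hne hneq
  have hmono : Nb G T (F.erase K) ⊆ Nb G T F := by
    intro t ht
    rw [mem_nb] at ht ⊢
    obtain ⟨h1, L, hL, x, hx, hxt⟩ := ht
    exact ⟨h1, L, Finset.mem_of_mem_erase hL, x, hx, hxt⟩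
  have h4 := Finset.card_le_card hmono
  have h5 := Finset.card_le_card (nb_subset G T F)
  have h6 := hO.good.num
  exact
    { two := htwo
      eq := by omega
      all := Finset.eq_of_subset_of_card_le (nb_subset G T F) (by omega)
      sur := hsur }

end Pool.Agent.Lib.MPded8ec.FC
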