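import Pool.Agent.Lib.MP_ded8ec_lc.FC.Spec

set_option autoImplicit false

namespace Pool.Agent.Lib.MPded8ec.FC

open Pool.Agent.Lib.MPded8ec.SG

universe u

namespace TRGM

/-- even legs -/
theorem ev (h : SpecMTC.{u}) {V : Type u} [Fintype V] [DecidableEq V] {G : SimpleGraph V} {T I : Finset V}
    (hH : Hub G T I) {x y z t₁ t₂ t₃ : V} {L₁ L₂ L₃ : Finset V} (h1 : Leg G T I false x t₁ L₁)
    (h2 : Leg G T I false y t₂ L₂) (h3 : Leg G T I false z t₃ L₃) (d12 : Disjoint L₁ L₂)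
    (d13 : Disjoint L₁ L₃) (d23 : Disjoint L₂ L₃) {W : Finset V}
    (hW : ∀ w, w ∈ W ↔ (w ∈ T ∨ w ∈ I) ∨ w ∈ L₁ ∨ w ∈ L₂ ∨ w ∈ L₃) : Mt G (W \ {x, y}) := by
  have m1 := (h1.ev rfl).1
  have m2 := (h2.ev rfl).1
  have m3 := (h3.ev rfl).2
  have e12 := fun w (a : w ∈ L₁) (b : w ∈ L₂) => (Finset.disjoint_left.1 d12) a b
  have e13 := fun w (a : w ∈ L₁) (b : w ∈ L₃) => (Finset.disjoint_left.1 d13) a b
  have e23 := fun w (a : w ∈ L₂) (b : w ∈ L₃) => (Finset.disjoint_left.1 d23) a b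
  have ht : t₁ ≠ t₂ := fun e => e12 t₁ h1.mt (e ▸ h2.mt)
  have m4 := hH.h1 t₁ h1.tT t₂ h2.tT ht
  have a1 := h1.mx
  have a2 := h1.mt
  have a3 := h1.dT
  have a4 := h1.dI
  have b1 := h2.mx
  have b2 := h2.mt
  have b3 := h2.dT
  have b4 := h2.dI
  have c2 := h3.mt
  have c3 := h3.dT
  have c4 := h3.dI
  have c5 := h3.tT
  have key : W \ {x, y} = ((L₁ \ {x}) ∪ ((L₂ \ {y}) ∪ (L₃ \ {t₃}))) ∪ ((T ∪ I) \ {t₁, t₂}) := by
    ext w
    simp only [Finset.mem_sdiff, Finset.mem_union, Finset.mem_insert, Finset.mem_singleton, hW]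
    grind
  rw [key]
  refine h.uni V G _ _ ?_ (h.uni V G _ _ ?_ m1 (h.uni V G _ _ ?_ m2 m3)) m4
  · rw [Finset.disjoint_left]
    intro w
    simp only [Finset.mem_sdiff, Finset.mem_union, Finset.mem_insert, Finset.mem_singleton]
    grind
  · rw [Finset.disjoint_left]
    intro w
    simp only [Finset.mem_sdiff, Finset.mem_union, Finset.mem_singleton]
    grind
  · rw [Finset.disjoint_left]
    intro w
    simp only [Finset.mem_sdiff, Finset.mem_singleton]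
    grind

/-- odd legs -/
theorem od (h : SpecMTC.{u}) {V : Type u} [Fintype V] [DecidableEq V] {G : SimpleGraph V} {T I : Finset V}
    (hH : Hub G T I) {x y z t₁ t₂ t₃ t : V} {L₁ L₂ L₃ : Finset V} (h1 : Leg G T I true x t₁ L₁)
    (h2 : Leg G T I true y t₂ L₂) (h3 : Leg G T I true z t₃ L₃) (d12 : Disjoint L₁ L₂)
    (d13 : Disjoint L₁ L₃) (d23 : Disjoint L₂ L₃) (hT : t ∈ T) (n1 : t ≠ t₁) (n2 : t ≠ t₂) (n3 : t ≠ t₃)
    {W : Finset V} (hW : ∀ w, w ∈ W ↔ ((w ∈ T ∨ w ∈ I) ∧ w ≠ t) ∨ w ∈ L₁ ∨ w ∈ L₂ ∨ w ∈ L₃) :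
    Mt G (W \ {x, y}) := by
  obtain ⟨x1, -, m1⟩ := h1.od rfl
  obtain ⟨x2, -, m2⟩ := h2.od rfl
  obtain ⟨x3, m3, -⟩ := h3.od rfl
  have e12 := fun w (a : w ∈ L₁) (b : w ∈ L₂) => (Finset.disjoint_left.1 d12) a b
  have e13 := fun w (a : w ∈ L₁) (b : w ∈ L₃) => (Finset.disjoint_left.1 d13) a b
  have e23 := fun w (a : w ∈ L₂) (b : w ∈ L₃) => (Finset.disjoint_left.1 d23) a b
  have m4 := hH.h1 t hT t₃ h3.tT n3
  have a1 := h1.mx
  have a2 := h1.mt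
  have a3 := h1.dT
  have a4 := h1.dI
  have a5 := h1.tT
  have b1 := h2.mx
  have b2 := h2.mt
  have b3 := h2.dT
  have b4 := h2.dI
  have b5 := h2.tT
  have c2 := h3.mt
  have c3 := h3.dT
  have c4 := h3.dI
  have c5 := h3.tT
  have key : W \ {x, y} = ((L₁ \ {x, t₁}) ∪ ((L₂ \ {y, t₂}) ∪ L₃)) ∪ ((T ∪ I) \ {t, t₃}) := by
    ext w
    simp only [Finset.mem_sdiff, Finset.mem_union, Finset.mem_insert, Finset.mem_singleton, hW]
    grind
  rw [key]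
  refine h.uni V G _ _ ?_ (h.uni V G _ _ ?_ m1 (h.uni V G _ _ ?_ m2 m3)) m4
  · rw [Finset.disjoint_left]
    intro w
    simp only [Finset.mem_sdiff, Finset.mem_union, Finset.mem_insert, Finset.mem_singleton]
    grind
  · rw [Finset.disjoint_left]
    intro w
    simp only [Finset.mem_sdiff, Finset.mem_union, Finset.mem_insert, Finset.mem_singleton]
    grind
  · rw [Finset.disjoint_left]
    intro w
    simp only [Finset.mem_sdiff, Finset.mem_insert, Finset.mem_singleton]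
    grind

theorem bool3 {V : Type u} {d : V → Bool} {x y z : V} (h1 : d x ≠ d y) (h2 : d x ≠ d z) (h3 : d y ≠ d z) : False := by
  cases hx : d x <;> cases hy : d y <;> cases hz : d z <;> simp_all

end TRGM

theorem specTRG (h : SpecMTC.{u}) : SpecTRG.{u} := by
  intro V _ _ G hB T I hH k x y z hxy hxz hyz t₁ t₂ t₃ L₁ L₂ L₃ h1 h2 h3 d12 d13 d23
  cases k with
  | false =>
    obtain ⟨d, hd⟩ := hB ((T ∪ I) ∪ (L₁ ∪ (L₂ ∪ L₃)))
    have hx : x ∈ (T ∪ I) ∪ (L₁ ∪ (L₂ ∪ L₃)) := by simp [h1.mx]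
    have hy : y ∈ (T ∪ I) ∪ (L₁ ∪ (L₂ ∪ L₃)) := by simp [h2.mx]
    have hz : z ∈ (T ∪ I) ∪ (L₁ ∪ (L₂ ∪ L₃)) := by simp [h3.mx]
    refine TRGM.bool3 (hd x hx y hy hxy ?_) (hd x hx z hz hxz ?_) (hd y hy z hz hyz ?_)
    · refine TRGM.ev h hH h1 h2 h3 d12 d13 d23 fun w => ?_
      simp only [Finset.mem_union]
    · refine TRGM.ev h hH h1 h3 h2 d13 d12 d23.symm fun w => ?_
      simp only [Finset.mem_union]
      tauto
    · refine TRGM.ev h hH h2 h3 h1 d23 d12.symm d13.symm fun w => ?_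
      simp only [Finset.mem_union]
      tauto
  | true =>
    obtain ⟨t, ht, hn⟩ : ∃ t ∈ T, t ∉ ({t₁, t₂, t₃} : Finset V) := by
      refine Finset.exists_mem_notMem_of_card_lt_card (lt_of_lt_of_le ?_ hH.four)
      exact lt_of_le_of_lt Finset.card_le_three (by norm_num)
    simp only [Finset.mem_insert, Finset.mem_singleton, not_or] at hn
    obtain ⟨n1, n2, n3⟩ := hn
    obtain ⟨d, hd⟩ := hB (((T ∪ I) \ {t}) ∪ (L₁ ∪ (L₂ ∪ L₃)))
    have hx : x ∈ ((T ∪ I) \ {t}) ∪ (L₁ ∪ (L₂ ∪ L₃)) := by simp [h1.mx]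
    have hy : y ∈ ((T ∪ I) \ {t}) ∪ (L₁ ∪ (L₂ ∪ L₃)) := by simp [h2.mx]
    have hz : z ∈ ((T ∪ I) \ {t}) ∪ (L₁ ∪ (L₂ ∪ L₃)) := by simp [h3.mx]
    refine TRGM.bool3 (hd x hx y hy hxy ?_) (hd x hx z hz hxz ?_) (hd y hy z hz hyz ?_)
    · refine TRGM.od h hH h1 h2 h3 d12 d13 d23 ht n1 n2 n3 fun w => ?_
      simp only [Finset.mem_union, Finset.mem_sdiff, Finset.mem_singleton]
    · refine TRGM.od h hH h1 h3 h2 d13 d12 d23.symm ht n1 n3 n2 fun w => ?_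
      simp only [Finset.mem_union, Finset.mem_sdiff, Finset.mem_singleton]
      tauto
    · refine TRGM.od h hH h2 h3 h1 d23 d12.symm d13.symm ht n2 n3 n1 fun w => ?_
      simp only [Finset.mem_union, Finset.mem_sdiff, Finset.mem_singleton]
      tauto

end Pool.Agent.Lib.MPded8ec.FC
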