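import Pool.Agent.Lib.MP_ded8ec_lc.FC.Spec
import Pool.Agent.Lib.MP_ded8ec_lc.SG.TBF

/-!
# 4-connected Seymour graphs (MP_ded8ec_lc), module TUT (helper93): Tutte's theorem for `G[W]`
-/

set_option autoImplicit false

namespace Pool.Agent.Lib.MPded8ec.FC

open Pool.Agent.Lib.MPded8ec.SG

universe u

theorem specTUT : SpecTUT.{u} := by
  classical
  intro V _ _ G W hev hno
  let H : SimpleGraph {x // x ∈ W} := G.comap (fun x => x.1)
  have hH : ∀ x y : {x // x ∈ W}, H.Adj x y ↔ G.Adj x.1 y.1 := fun x y => Iff.rfl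
  have hT := specTBF {x // x ∈ W} H 0 (by rw [Fintype.card_coe]; simpa using hev) (by
    rintro ⟨μ, h1, h2, h3⟩
    apply hno
    have hne : ∀ x, μ x ≠ x := by
      intro x hx
      have : x ∈ Finset.univ.filter fun x => μ x = x := by simp [hx]
      have h4 := Finset.card_pos.2 ⟨x, this⟩
      omega
    refine ⟨fun x => if h : x ∈ W then (μ ⟨x, h⟩).1 else x, ?_⟩
    intro x hx
    have e1 : (fun x => if h : x ∈ W then (μ ⟨x, h⟩).1 else x) x = (μ ⟨x, hx⟩).1 := by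
      simp [hx]
    rw [e1]
    refine ⟨(μ ⟨x, hx⟩).2, ?_, ?_⟩
    · have e2 : (fun x => if h : x ∈ W then (μ ⟨x, h⟩).1 else x) (μ ⟨x, hx⟩).1 =
          (μ (μ ⟨x, hx⟩)).1 := by
        simp
      rw [e2, h1]
    · exact (hH ⟨x, hx⟩ (μ ⟨x, hx⟩)).1 (h2 ⟨x, hx⟩ (hne ⟨x, hx⟩)))
  obtain ⟨S', f, hf, hc⟩ := hT
  let cl : {x // x ∈ W} → Finset V := fun q =>
    (Finset.univ.filter fun x : {x // x ∈ W} => x ∉ S' ∧ f x = q).map (Function.Embedding.subtype _)
  have hcl : ∀ q v, v ∈ cl q ↔ ∃ h : v ∈ W, (⟨v, h⟩ : {x // x ∈ W}) ∉ S' ∧ f ⟨v, h⟩ = q := by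
    intro q v
    constructor
    · intro hv
      obtain ⟨x, hx, rfl⟩ := Finset.mem_map.1 hv
      exact ⟨x.2, (Finset.mem_filter.1 hx).2⟩
    · rintro ⟨h, h1⟩
      exact Finset.mem_map.2 ⟨⟨v, h⟩, Finset.mem_filter.2 ⟨Finset.mem_univ _, h1⟩, rfl⟩
  let Q : Finset {x // x ∈ W} := Finset.univ.filter fun q =>
        Odd (Finset.univ.filter fun x => x ∉ S' ∧ f x = q).card
  have hodd : ∀ q ∈ Q, Odd (cl q).card := by
    intro q hq
    rw [Finset.card_map]
    exact (Finset.mem_filter.1 hq).2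
  have hdis : ∀ q r, q ≠ r → Disjoint (cl q) (cl r) := by
    intro q r hqr
    rw [Finset.disjoint_left]
    intro v hv hv'
    obtain ⟨h, _, h2⟩ := (hcl q v).1 hv
    obtain ⟨h', _, h2'⟩ := (hcl r v).1 hv'
    exact hqr (h2.symm.trans h2')
  refine ⟨S'.map (Function.Embedding.subtype _), Q.image cl, ?_, ?_, ?_⟩
  · intro v hv
    obtain ⟨x, _, rfl⟩ := Finset.mem_map.1 hv
    exact x.2
  · have hS : ∀ v (h : v ∈ W), v ∈ S'.map (Function.Embedding.subtype _) ↔
        (⟨v, h⟩ : {x // x ∈ W}) ∈ S' := by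
      intro v h
      constructor
      · intro hv
        obtain ⟨x, hx, rfl⟩ := Finset.mem_map.1 hv
        exact hx
      · intro hv
        exact Finset.mem_map.2 ⟨_, hv, rfl⟩
    refine ⟨?_, ?_, ?_, ?_, ?_⟩
    · intro K hK v hv
      obtain ⟨q, _, rfl⟩ := Finset.mem_image.1 hK
      exact ((hcl q v).1 hv).1
    · intro K hK
      obtain ⟨q, hq, rfl⟩ := Finset.mem_image.1 hK
      exact hodd q hq
    · intro K hK
      obtain ⟨q, _, rfl⟩ := Finset.mem_image.1 hK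
      rw [Finset.disjoint_left]
      intro v hv hv'
      obtain ⟨h, h1, _⟩ := (hcl q v).1 hv
      exact h1 ((hS v h).1 hv')
    · intro K hK L hL hKL
      obtain ⟨q, _, rfl⟩ := Finset.mem_image.1 hK
      obtain ⟨r, _, rfl⟩ := Finset.mem_image.1 hL
      exact hdis q r (fun h => hKL (by rw [h]))
    · intro K hK x hx y hy hxy
      obtain ⟨q, _, rfl⟩ := Finset.mem_image.1 hK
      obtain ⟨h, h1, h2⟩ := (hcl q x).1 hx
      by_cases hyS : (⟨y, hy⟩ : {x // x ∈ W}) ∈ S'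
      · exact Or.inr ((hS y hy).2 hyS)
      · left
        refine (hcl q y).2 ⟨hy, hyS, ?_⟩
        rw [← h2]
        exact (hf ⟨x, h⟩ ⟨y, hy⟩ h1 hyS ((hH _ _).2 hxy)).symm
  · have hinj : Set.InjOn cl (Q : Set {x // x ∈ W}) := by
      intro q hq r hr hqr
      by_contra hne
      have h1 := hdis q r hne
      have h2 := hodd q hq
      rw [← hqr, disjoint_self, Finset.bot_eq_empty] at h1
      rw [h1] at h2
      simp at h2
    rw [Finset.card_map, Finset.card_image_of_injOn hinj]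
    have h3 : S'.card + 0 + 2 ≤ Q.card := by
      refine le_trans hc (le_of_eq ?_)
      congr
    omega

end Pool.Agent.Lib.MPded8ec.FC
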