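import Pool.Agent.Lib.MP_ded8ec_lc.SG.Main
import Pool.Agent.Lib.MP_ded8ec_lc.FC.MTC
import Pool.Agent.Lib.MP_ded8ec_lc.FC.PTH
import Pool.Agent.Lib.MP_ded8ec_lc.FC.BAS
import Pool.Agent.Lib.MP_ded8ec_lc.FC.TUT
import Pool.Agent.Lib.MP_ded8ec_lc.FC.BER
import Pool.Agent.Lib.MP_ded8ec_lc.FC.CMP
import Pool.Agent.Lib.MP_ded8ec_lc.FC.OPT
import Pool.Agent.Lib.MP_ded8ec_lc.FC.INI
import Pool.Agent.Lib.MP_ded8ec_lc.FC.ENL
import Pool.Agent.Lib.MP_ded8ec_lc.FC.FCR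
import Pool.Agent.Lib.MP_ded8ec_lc.FC.SUR
import Pool.Agent.Lib.MP_ded8ec_lc.FC.HAL
import Pool.Agent.Lib.MP_ded8ec_lc.FC.EXP
import Pool.Agent.Lib.MP_ded8ec_lc.FC.EVT
import Pool.Agent.Lib.MP_ded8ec_lc.FC.NBP
import Pool.Agent.Lib.MP_ded8ec_lc.FC.SNA
import Pool.Agent.Lib.MP_ded8ec_lc.FC.SNB
import Pool.Agent.Lib.MP_ded8ec_lc.FC.SNG
import Pool.Agent.Lib.MP_ded8ec_lc.FC.HUB
import Pool.Agent.Lib.MP_ded8ec_lc.FC.TWO
import Pool.Agent.Lib.MP_ded8ec_lc.FC.MEN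
import Pool.Agent.Lib.MP_ded8ec_lc.FC.TRG
import Pool.Agent.Lib.MP_ded8ec_lc.FC.FIN

/-!
# 4-connected Seymour graphs (MP_ded8ec_lc): the theorem (helper29)
-/

set_option autoImplicit false

namespace Pool.Agent.Lib.MPded8ec.FC

universe u

theorem mBER : SpecBER.{u} := specBER specMTC

theorem mENL : SpecENL.{u} := specENL specCMP

theorem mFCR : SpecFCR.{u} := specFCR specTUT mENL

theorem mSUR : SpecSUR.{u} := specSUR mENL

theorem mPTH : SpecPTH.{u} := specPTH specMTC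

theorem mEXP : SpecEXP.{u} := specEXP specMTC specHAL

theorem mSNG : SpecSNG.{u} :=
  specSNG specMTC specCMP mFCR mSUR (specEVT mPTH) specNBP (specSNA specMTC mEXP)
    (specSNB specTUT mBER specCMP mENL)

theorem mHUB : SpecHUB.{u} := specHUB mFCR mSUR mEXP mSNG

theorem main : Main.{u} :=
  specFIN specBAS specOPT (specINI specTUT specCMP) mHUB (specTWO specMTC mPTH)
    (specMEN specMTC mPTH) (specTRG specMTC)

end Pool.Agent.Lib.MPded8ec.FC
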