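import Pool.Agent.Lib.MP_ded8ec_lc.SG.SpecC
import Pool.Agent.DL.MENG

/-!
# 4-connected Seymour graphs (MP_ded8ec_lc): a 4-connected graph `G` is a Seymour graph iff `G - v` is
# bipartite for some `v`.  Specification.

Captain helper29.  Every statement has its complete proof in the docstring.  The module `XXX` is the file
`Pool/Agent/Lib/MP_ded8ec_lc/FC/XXX.lean` which proves `theorem specXXX (h : SpecYYY) .. : SpecXXX`, the
hypotheses are the modules of the same folder named after `from` (in this order, universe `u`).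

Overview: `BAL`: for every set `W` the edges of `G[W]` which lie in perfect matchings of `G[W]` form a bipartite graph
(a consequence of the Seymour property, BAS).  We choose an extremal set `T` as in Tutte's theorem
(INI, OPT, ENL), the components are single vertices (FCR, SUR, HAL, EXP, EVT, NBP, SNA, SNB, SNG): this gives a
hub (HUB).  The dichotomy `SpecDIC` (proved in SG) for `T ∪ I` gives two disjoint paths (TWO), or a
triangle (MEN, TRG), or the theorem.
-/

set_option autoImplicit false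

namespace Pool.Agent.Lib.MPded8ec.FC

open Pool.Agent.Lib.MPded8ec.SG

universe u

/-! ### matchings -/

/-- `G[W]` has a perfect matching (`m x` is the partner of `x`). -/
def Mt {V : Type u} (G : SimpleGraph V) (W : Finset V) : Prop :=
  ∃ m : V → V, ∀ x ∈ W, m x ∈ W ∧ m (m x) = x ∧ G.Adj x (m x)

/-- For every `W` the edges `x y` of `G[W]` which are in a perfect matching of `G[W]` are two-coloured by
some colouring. -/
def BAL {V : Type u} [DecidableEq V] (G : SimpleGraph V) : Prop :=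
  ∀ W : Finset V, ∃ d : V → Bool, ∀ x ∈ W, ∀ y ∈ W, G.Adj x y → Mt G (W \ {x, y}) → d x ≠ d y

/-- MTC (150 lines).  The calculus of perfect matchings.
`uni`: `m x = if x ∈ A then m_A x else m_B x`.
`bun`: induction on `s` with `uni` (or choose a partner function for each `i`).
`par`: `m` is an involution of `W` without fixed points (`Finset.card_involution` / `Finset.sum_involution`, or
strong induction with `cut`).
`cut`: `y = m x`; `m` maps `W \ {x, m x}` to itself. -/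
structure SpecMTC : Prop where
  emp : ∀ (V : Type u) (G : SimpleGraph V), Mt G ∅
  pair : ∀ (V : Type u) [DecidableEq V] (G : SimpleGraph V) (x y : V), G.Adj x y → Mt G {x, y}
  uni : ∀ (V : Type u) [DecidableEq V] (G : SimpleGraph V) (A B : Finset V), Disjoint A B →
    Mt G A → Mt G B → Mt G (A ∪ B)
  bun : ∀ (V ι : Type u) [DecidableEq V] (G : SimpleGraph V) (s : Finset ι) (A : ι → Finset V),
    (∀ i ∈ s, Mt G (A i)) → (∀ i ∈ s, ∀ j ∈ s, i ≠ j → Disjoint (A i) (A j)) → Mt G (s.biUnion A)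
  par : ∀ (V : Type u) (G : SimpleGraph V) (W : Finset V), Mt G W → Even W.card
  cut : ∀ (V : Type u) [DecidableEq V] (G : SimpleGraph V) (W : Finset V), Mt G W → ∀ x ∈ W,
    ∃ y ∈ W, G.Adj x y ∧ Mt G (W \ {x, y})
  mono : ∀ (V : Type u) (G H : SimpleGraph V) (W : Finset V),
    (∀ x ∈ W, ∀ y ∈ W, G.Adj x y → H.Adj x y) → Mt G W → Mt H W

/-- PTH (180 lines, from MTC).  Matchings of paths (`SG.Wk G.Adj a l b`: path from `a` to `b` with the list `l`
of interior vertices).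

PROOF.  `inn`, `full`: the vertices of a path with an even number of vertices are matched in consecutive
pairs (induction on the list, two entries at a time; for a list `l` with `l.length` even, nodup and
consecutive entries adjacent, `Mt G l.toFinset`, by MTC `pair`, `uni`).  `lft`: the list `a :: l` has an even
number of entries.  `rgt`: the list `l ++ [b]`.
`edg`: induction on `l`, two entries at a time.  `l = []`: the edge `a b`, `P \ {a, b} = ∅`.
`l = x :: y :: l'`: the edge `a x`: `P \ {a, x}` are the vertices of the path `(y, l', b)`, which has a perfect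
matching (`full`).  The edge `x y`: `l \ {x, y} = l'`, `inn`.  The edges of the path `(y, l', b)`: add the pair
`a x` to the first type, `x y` to the second type. -/
structure SpecPTH : Prop where
  full : ∀ (V : Type u) [DecidableEq V] (G : SimpleGraph V) (a b : V) (l : List V),
    Wk G.Adj a l b → (a :: (l ++ [b])).Nodup → Even l.length → Mt G (a :: (l ++ [b])).toFinset
  inn : ∀ (V : Type u) [DecidableEq V] (G : SimpleGraph V) (a b : V) (l : List V),
    Wk G.Adj a l b → (a :: (l ++ [b])).Nodup → Even l.length → Mt G l.toFinset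
  lft : ∀ (V : Type u) [DecidableEq V] (G : SimpleGraph V) (a b : V) (l : List V),
    Wk G.Adj a l b → (a :: (l ++ [b])).Nodup → Odd l.length → Mt G (a :: l).toFinset
  rgt : ∀ (V : Type u) [DecidableEq V] (G : SimpleGraph V) (a b : V) (l : List V),
    Wk G.Adj a l b → (a :: (l ++ [b])).Nodup → Odd l.length → Mt G (l ++ [b]).toFinset
  edg : ∀ (V : Type u) [DecidableEq V] (G : SimpleGraph V) (a b : V) (l : List V),
    Wk G.Adj a l b → (a :: (l ++ [b])).Nodup → Even l.length →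
    Wk (fun x y => G.Adj x y ∧
      ((x ∈ a :: (l ++ [b]) ∧ y ∈ a :: (l ++ [b]) ∧ Mt G ((a :: (l ++ [b])).toFinset \ {x, y})) ∨
        (x ∈ l ∧ y ∈ l ∧ Mt G (l.toFinset \ {x, y})))) a l b

/-- BAS (150 lines).

PROOF.  Let `W` be given.  If there are no adjacent `x`, `y ∈ W` with `Mt G (W \ {x, y})` any `d` will do.
Claim: if `Mt G A` there is a list `M` of pairs with adjacent components, `(vl M).Nodup`, and
`(vl M).toFinset = A` (strong induction on `|A|`: take `x ∈ A`, the pair `(x, m x)`, and `m` on `A \ {x, m x}`).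
So if `x₀`, `y₀` is one such pair, let `M` be the list for `W` (`(x₀, y₀)` and the list for `W \ {x₀, y₀}`).  `SG.specOBS`
(import `Pool.Agent.Lib.MP_ded8ec_lc.SG.OBS`) for `M` gives `d`.  For any other such pair `x`, `y` let `M'` be
`(x, y)` and the list for `W \ {x, y}`: `vl M'` and `vl M` have no duplicates and the same elements, so
`(vl M').Perm (vl M)`, so `d x ≠ d y`. -/
def SpecBAS : Prop :=
  ∀ (V : Type u) [Fintype V] [DecidableEq V] (G : SimpleGraph V) (_ : IsSeymour G), BAL G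

/-! ### families of odd sets -/

/-- `F` is a family of pairwise disjoint odd subsets of `U`, disjoint from `T`, whose elements have no
neighbours in `U` outside of the set and `T`. -/
structure Fam {V : Type u} (G : SimpleGraph V) (U T : Finset V) (F : Finset (Finset V)) : Prop where
  sub : ∀ K ∈ F, K ⊆ U
  odd : ∀ K ∈ F, Odd K.card
  dis : ∀ K ∈ F, Disjoint K T
  pw : ∀ K ∈ F, ∀ L ∈ F, K ≠ L → Disjoint K L
  nb : ∀ K ∈ F, ∀ x ∈ K, ∀ y ∈ U, G.Adj x y → y ∈ K ∨ y ∈ T

/-- TUT (120 lines).  Tutte's theorem for the graph `G[W]`.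

PROOF.  `SG.specTBF` (import `Pool.Agent.Lib.MP_ded8ec_lc.SG.TBF`) for `P = {x // x ∈ W}`, the graph `H.Adj x y :=
G.Adj x y`, `k = 0`: an involution `μ` without fixed points would give `Mt G W`.  So there are `S'` and `f`.
`S` = the set of the elements of `S'`; `F` = the set of all classes `{x | x ∉ S' ∧ f x = q}` of odd size (as
subsets of `V`); they are nonempty and disjoint for different `q`, so there are as many as `q`. -/
def SpecTUT : Prop :=
  ∀ (V : Type u) [Fintype V] [DecidableEq V] (G : SimpleGraph V) (W : Finset V) (_ : Even W.card)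
    (_ : ¬ Mt G W), ∃ (S : Finset V) (F : Finset (Finset V)), S ⊆ W ∧ Fam G W S F ∧
      S.card + 2 ≤ F.card

/-- BER (80 lines, from MTC).  The easy direction.

PROOF.  Let `m` be the perfect matching of `W`.  Let `K ∈ F`.  There is `x ∈ K` with `m x ∈ S`: otherwise `m x ∈ K`
for all `x ∈ K` (`nb`), so `Mt G K`, and `K` is even (MTC `par`): contradiction.  Choose such an `x_K`.
`K ↦ m x_K` is injective on `F`: `m x_K = m x_L` gives `x_K = x_L` and `K`, `L` are not disjoint. -/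
def SpecBER : Prop :=
  ∀ (V : Type u) [DecidableEq V] (G : SimpleGraph V) (W S : Finset V) (F : Finset (Finset V))
    (_ : Fam G W S F) (_ : Mt G W), F.card ≤ S.card

/-- `K` is nonempty and `G[K]` is connected. -/
def Cn {V : Type u} (G : SimpleGraph V) (K : Finset V) : Prop :=
  K.Nonempty ∧ ∀ A ⊆ K, A.Nonempty → (∀ x ∈ A, ∀ y ∈ K, G.Adj x y → y ∈ A) → A = K

/-- CMP (120 lines).  `cmp`: the component `K` of `x` in `G - T`: the set of the vertices which are reachable from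
`x` by `Relation.ReflTransGen (fun a b => G.Adj a b ∧ b ∉ T)`.  (`Cn`: a nonempty closed subset `A` of `K` contains
with `a ∈ A` everything reachable from `a`, and `x` is reachable from `a` since the relation is symmetric
outside of `T`.)
`four`: otherwise `G - T` is connected (`Conn4`); it contains an element of `A` and `x`, so there are adjacent
`y ∈ A`, `z ∉ A`, `z ∉ T`: contradiction. -/
structure SpecCMP : Prop where
  cmp : ∀ (V : Type u) [Fintype V] [DecidableEq V] (G : SimpleGraph V) (T : Finset V) (x : V)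
    (_ : x ∉ T), ∃ K : Finset V, x ∈ K ∧ Cn G K ∧ Disjoint K T ∧
      (∀ y ∈ K, ∀ z, G.Adj y z → z ∈ K ∨ z ∈ T) ∧
      ∀ C : Finset V, x ∈ C → (∀ y ∈ C, ∀ z, G.Adj y z → z ∈ C ∨ z ∈ T) → K ⊆ C
  four : ∀ (V : Type u) [Fintype V] [DecidableEq V] (G : SimpleGraph V) (_ : Conn4 G)
    (T A : Finset V) (_ : A.Nonempty) (_ : Disjoint A T)
    (_ : ∀ y ∈ A, ∀ z, G.Adj y z → z ∈ A ∨ z ∈ T) (x : V) (_ : x ∉ A) (_ : x ∉ T), 4 ≤ T.card

/-- A good triple. -/
structure Good {V : Type u} [Fintype V] (G : SimpleGraph V) (T K0 : Finset V)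
    (F : Finset (Finset V)) : Prop where
  con : Cn G K0
  dis : Disjoint K0 T
  nb : ∀ x ∈ K0, ∀ y, G.Adj x y → y ∈ K0 ∨ y ∈ T
  fam : Fam G Finset.univ T F
  dk : ∀ K ∈ F, Disjoint K K0
  num : T.card ≤ F.card + 2
  four : 4 ≤ T.card

/-- A good triple with `|K0|` maximal and then the sum of the sizes of the sets in `F` minimal. -/
structure Opt {V : Type u} [Fintype V] (G : SimpleGraph V) (T K0 : Finset V)
    (F : Finset (Finset V)) : Prop where
  good : Good G T K0 F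
  max : ∀ (T' K' : Finset V) (F' : Finset (Finset V)), Good G T' K' F' → K'.card ≤ K0.card
  min : ∀ (T' : Finset V) (F' : Finset (Finset V)), Good G T' K0 F' →
    ∑ K ∈ F, K.card ≤ ∑ K ∈ F', K.card

/-- OPT (60 lines).

PROOF.  Choose a good triple with `|K0|` maximal (`|K0| ≤ |V|`), and among the good triples with this value of
`|K0|` one for which the sum is minimal. -/
def SpecOPT : Prop :=
  ∀ (V : Type u) [Fintype V] (G : SimpleGraph V)
    (_ : ∃ (T K0 : Finset V) (F : Finset (Finset V)), Good G T K0 F),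
    ∃ (T K0 : Finset V) (F : Finset (Finset V)), Opt G T K0 F

/-- INI (200 lines, from TUT, CMP).

PROOF.  If `|V|` is even let `W` be the set of all vertices, `v₀` any vertex; otherwise let `v₀` be any vertex and
`W` the set of all vertices different from `v₀`.  `|W|` is even, `|V \ W| ≤ 1`.
(a) If `Mt G (W \ {u, v})` for all adjacent `u`, `v ∈ W`: `BAL` for `W` gives `d` with `d u ≠ d v` for all adjacent
`u`, `v ∈ W`: `Apex` with `v₀`, `d`.
(b) Otherwise let `u`, `v ∈ W` be adjacent (so different) with `¬ Mt G (W \ {u, v})`; `|W \ {u, v}|` is even.  TUT gives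
`S ⊆ W \ {u, v}` and `F₁` with `|S| + 2 ≤ |F₁|`.  Let `T = univ \ ((W \ {u, v}) \ S)`, `|T| ≤ |S| + 3 ≤ |F₁| + 1`.
`Fam G univ T F₁` (a neighbour outside of `W \ {u, v}` is in `T`).  Let `K₁ ∈ F₁`, `x₀ ∈ K₁` (odd, so
nonempty), `K0` = the component of `x₀` in `G - T` (CMP `cmp`).  `K0 ⊆ K₁` (`C = K₁`).  `F = F₁.erase K₁`: it has
`|F₁| - 1 ≥ 1` elements, `|T| ≤ |F| + 2`, its elements are disjoint from `K₁`, so from `K0`.  `4 ≤ |T|`: CMP `four`
with `A` = an element of `F`, `x = x₀`. -/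
def SpecINI : Prop :=
  ∀ (V : Type u) [Fintype V] [DecidableEq V] (G : SimpleGraph V) (_ : Conn4 G) (_ : BAL G),
    Apex G ∨ ∃ (T K0 : Finset V) (F : Finset (Finset V)), Good G T K0 F

/-- ENL (120 lines, from CMP).

PROOF.  Let `x ∈ K0` (`Cn`), `x ∉ T'`, `K'` = the component of `x` in `G - T'` (CMP `cmp`).  `K0 ⊆ K'`: `A = K0 ∩ K'` is a
nonempty subset of `K0`, and `z ∈ A`, `y ∈ K0`, `z`, `y` adjacent give `y ∈ K'` or `y ∈ T'`; `K0` and `T'` are
disjoint; so `A = K0` by `Cn`.  `Good G T' K' F'`: `con`, `dis`, `nb`: CMP.  `dk`: let `K ∈ F'`; `C = univ \ (K ∪ T')`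
contains `x`, and is closed (if `y ∉ K ∪ T'` is adjacent to `z ∈ K` then `y ∈ K ∪ T'` by `Fam.nb`), so
`K' ⊆ C`.  `four`: CMP `four` with `A` = an element of `F'` (odd, so nonempty) and `x`.  So by `max` `|K'| ≤ |K0|`, `K' = K0`
(`Finset.eq_of_subset_of_card_le`).  The first claim is `nb`, the second claim is `min`. -/
def SpecENL : Prop :=
  ∀ (V : Type u) [Fintype V] [DecidableEq V] (G : SimpleGraph V) (_ : Conn4 G)
    (T K0 : Finset V) (F : Finset (Finset V)) (_ : Opt G T K0 F)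
    (T' : Finset V) (F' : Finset (Finset V)) (_ : Fam G Finset.univ T' F') (_ : Disjoint K0 T')
    (_ : ∀ K ∈ F', Disjoint K K0) (_ : F'.Nonempty) (_ : T'.card ≤ F'.card + 2),
    (∀ x ∈ K0, ∀ y, G.Adj x y → y ∈ K0 ∨ y ∈ T') ∧ ∑ K ∈ F, K.card ≤ ∑ K ∈ F', K.card

/-- FCR (200 lines, from TUT, ENL).  The sets in `F` are factor-critical.

PROOF.  Otherwise let `K ∈ F`, `x ∈ K`, `¬ Mt G (K \ {x})`; `|K \ {x}|` is even.  TUT gives `S ⊆ K \ {x}`, `F₁`,
`|S| + 2 ≤ |F₁|`.  Let `T' = T ∪ insert x S`, `F' = F.erase K ∪ F₁`.  `Fam G univ T' F'`: for `L ∈ F.erase K`: `L` is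
disjoint from `K` (so from `insert x S`) and `T`.  For `L ∈ F₁`: `L ⊆ K \ {x}`, disjoint from `S` and `T`; a neighbour `y` of
an element of `L` is in `K` or `T`, and if `y ∈ K` then `y = x` or `y ∈ L` or `y ∈ S`.  `pw`: elements of `F.erase K` are
disjoint from `K`.  `F.erase K` and `F₁` are disjoint (a common element would be a subset of `K` disjoint from `K`,
so empty, not odd), so `|F'| = |F| - 1 + |F₁| ≥ |F| + |S| + 1`, `|T'| ≤ |T| + |S| + 1 ≤ |F'| + 2`.  `T'` and the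
elements of `F'` are disjoint from `K0`.  The sum of the sizes of the elements of `F₁` is at most `|K \ {x}| < |K|`
(disjoint subsets), so the sum for `F'` is smaller than for `F`: contradiction to ENL. -/
def SpecFCR : Prop :=
  ∀ (V : Type u) [Fintype V] [DecidableEq V] (G : SimpleGraph V) (_ : Conn4 G)
    (T K0 : Finset V) (F : Finset (Finset V)) (_ : Opt G T K0 F),
    ∀ K ∈ F, ∀ x ∈ K, Mt G (K \ {x})

open Classical in
/-- The elements of `T` which have a neighbour in an element of `X`. -/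
noncomputable def Nb {V : Type u} (G : SimpleGraph V) (T : Finset V) (X : Finset (Finset V)) :
    Finset V :=
  T.filter fun t => ∃ K ∈ X, ∃ x ∈ K, G.Adj x t

/-- The surplus. -/
structure Sur {V : Type u} (G : SimpleGraph V) (T : Finset V) (F : Finset (Finset V)) : Prop where
  two : 2 ≤ F.card
  eq : T.card = F.card + 2
  all : Nb G T F = T
  sur : ∀ X ⊆ F, X.Nonempty → X ≠ F → X.card + 3 ≤ (Nb G T X).card

/-- SUR (120 lines, from ENL).

PROOF.  `sur`: suppose `|Nb X| ≤ |X| + 2`.  ENL with `T' = Nb G T X`, `F' = X` (`nb`: a neighbour in `T` of an element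
of `K ∈ X` is in `Nb`).  The sum of the sizes for `F` is at most that for `X ⊆ F`, all elements of `F` are
nonempty (odd), so `X = F`: contradiction.  `two`: `4 ≤ |T| ≤ |F| + 2`.  `eq`, `all`: let `K ∈ F`, `X = F.erase K`
(nonempty, different from `F`): `|F| - 1 + 3 ≤ |Nb X| ≤ |Nb F| ≤ |T| ≤ |F| + 2`, so there is equality everywhere. -/
def SpecSUR : Prop :=
  ∀ (V : Type u) [Fintype V] [DecidableEq V] (G : SimpleGraph V) (_ : Conn4 G)
    (T K0 : Finset V) (F : Finset (Finset V)) (_ : Opt G T K0 F), Sur G T F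

/-- HAL (100 lines).  Hall's theorem.

PROOF.  `Finset.all_card_le_biUnion_card_iff_exists_injective` for `ι = {K // K ∈ X}`, the sets
`{t ∈ T | t ∉ Z ∧ ∃ x ∈ K, G.Adj x t}`.  For a set `Y` of indices (as a subset of `X`) the union is `Nb G T Y \ Z`.  If
`Y` is empty: trivial.  If `Y ≠ F`: `|Nb Y \ Z| ≥ |Y| + 3 - |Z| ≥ |Y|`.  If `Y = F`: `X = F`, so `|Z| ≤ 2`, and
`|Nb F \ Z| ≥ |T| - 2 = |F|`. -/
def SpecHAL : Prop :=
  ∀ (V : Type u) [DecidableEq V] (G : SimpleGraph V) (T : Finset V) (F : Finset (Finset V))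
    (_ : Sur G T F) (X : Finset (Finset V)) (_ : X ⊆ F) (Z : Finset V)
    (_ : Z.card ≤ 2 ∨ (Z.card ≤ 3 ∧ X ≠ F)),
    ∃ φ : Finset V → V, Set.InjOn φ X ∧ ∀ K ∈ X, φ K ∈ T ∧ φ K ∉ Z ∧ ∃ x ∈ K, G.Adj x (φ K)

/-- EXP (150 lines, from MTC, HAL).

PROOF.  Let `X = F`, `Z = {a, b}`, or `X = F.erase K₁`, `Z = {t, a, b}`: `|T \ Z| = |X|` by `Sur.eq`.  HAL gives `φ`, and
`x_K ∈ K` adjacent to `φ K` for `K ∈ X`.  `A K = insert (φ K) K = {x_K, φ K} ∪ (K \ {x_K})` has a perfect matching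
(MTC `pair`, `uni`; `φ K ∈ T` is not in `K`).  The sets `A K`, `K ∈ X`, are pairwise disjoint (`φ` is injective on
`X`, the sets `K` are disjoint from each other and from `T`).  So MTC `bun` (with `ι = Finset V`): the union has
a perfect matching.  It is `(⋃ K) ∪ φ(X)`, and `φ(X) ⊆ T \ Z` has `|X| = |T \ Z|` elements, so `φ(X) = T \ Z`. -/
def SpecEXP : Prop :=
  ∀ (V : Type u) [Fintype V] [DecidableEq V] (G : SimpleGraph V) (T : Finset V)
    (F : Finset (Finset V)) (_ : Sur G T F) (_ : Fam G Finset.univ T F)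
    (_ : ∀ K ∈ F, ∀ x ∈ K, Mt G (K \ {x})),
    (∀ a ∈ T, ∀ b ∈ T, a ≠ b → Mt G ((T \ {a, b}) ∪ F.biUnion id)) ∧
    ∀ K₁ ∈ F, ∀ t ∈ T, ∀ a ∈ T, ∀ b ∈ T, a ≠ b → a ≠ t → b ≠ t →
      Mt G ((T \ {t, a, b}) ∪ (F.erase K₁).biUnion id)

/-- EVT (250 lines, from PTH).  A path of even length between two elements of `A` with interior in `K0`.

PROOF.  Let `a₁`, `a₂`, `a₃ ∈ A` be different, `x_i ∈ K0` adjacent to `a_i`.  `K0` is connected (`Cn`: the set of the
elements of `K0` which can be reached from `x ∈ K0` inside of `K0` is closed, so it is `K0`).  Let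
`p` be the vertex list of a path from `x₁` to `x₂` in `K0` (no duplicates), and take a shortest walk in `K0` from `x₃` to
an element `w` of `p`, with vertices `q ++ [w]`: `q` has no duplicates and no elements in `p` (`q = []` if `x₃ ∈ p`).
`p = p₁ ++ w :: p₂`.  There are three paths with interior in `K0`:
`(a₁, p₁ ++ w :: p₂, a₂)`, `(a₁, p₁ ++ w :: q.reverse, a₃)`, `(a₃, q ++ w :: p₂, a₂)`.  Two of the numbers
`|p₁|`, `|p₂|`, `|q|` have the same parity, so one of the three interiors `l` has odd length.  `D = l.toFinset`; PTH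
`lft`, `rgt`. -/
def SpecEVT : Prop :=
  ∀ (V : Type u) [Fintype V] [DecidableEq V] (G : SimpleGraph V) (K0 A : Finset V) (_ : Cn G K0)
    (_ : 3 ≤ A.card) (_ : Disjoint A K0) (_ : ∀ a ∈ A, ∃ x ∈ K0, G.Adj x a),
    ∃ a ∈ A, ∃ c ∈ A, a ≠ c ∧ ∃ D ⊆ K0, Mt G (insert a D) ∧ Mt G (insert c D)

/-- NBP (100 lines).  A factor-critical graph with at least 3 vertices is not bipartite.

PROOF.  Otherwise `d x ≠ d y` for all adjacent `x`, `y ∈ K`.  Let `A = {x ∈ K | d x = true}`,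
`B = {x ∈ K | d x = false}`.  For `x ∈ K` the matching of `K \ {x}` is a bijection between `A \ {x}` and `B \ {x}`, so
`|A \ {x}| = |B \ {x}|`.  If there are `x ∈ A` and `y ∈ B`: `|A| - 1 = |B|` and `|A| = |B| - 1`: contradiction.
If `B = ∅`, `x ∈ A = K`: `|K| - 1 = 0`: contradiction; the same for `A = ∅`. -/
def SpecNBP : Prop :=
  ∀ (V : Type u) [DecidableEq V] (G : SimpleGraph V) (K : Finset V) (_ : 3 ≤ K.card)
    (_ : ∀ x ∈ K, Mt G (K \ {x})) (d : V → Bool), ∃ x ∈ K, ∃ y ∈ K, G.Adj x y ∧ d x = d y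

/-- SNA (120 lines, from MTC, EXP).

PROOF.  Let `e = a` if `s ≠ a`, otherwise `e = c` (`s = a ≠ c`): `e ∈ T`, `e ≠ s`, `e ≠ t`, `Mt G (insert e D)`.  The set is the
disjoint union of `{x, s}`, `insert e D`, and `(T \ {s, t, e}) ∪ (F.erase K).biUnion id` (EXP with `K₁ = K`, `t := s`,
`a := t`, `b := e`). -/
def SpecSNA : Prop :=
  ∀ (V : Type u) [Fintype V] [DecidableEq V] (G : SimpleGraph V) (T : Finset V)
    (F : Finset (Finset V)) (_ : Sur G T F) (_ : Fam G Finset.univ T F)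
    (_ : ∀ K ∈ F, ∀ x ∈ K, Mt G (K \ {x})) (D : Finset V) (_ : Disjoint D T)
    (_ : ∀ K ∈ F, Disjoint D K) (a c t : V) (_ : a ∈ T) (_ : c ∈ T) (_ : t ∈ T) (_ : a ≠ c)
    (_ : t ≠ a) (_ : t ≠ c) (_ : Mt G (insert a D)) (_ : Mt G (insert c D))
    (K : Finset V) (_ : K ∈ F) (x s : V) (_ : x ∈ K) (_ : s ∈ T) (_ : s ≠ t) (_ : G.Adj x s),
    Mt G (insert x ((((T \ {t}) ∪ F.biUnion id) ∪ D) \ K))

/-- SNB (250 lines, from TUT, BER, CMP, ENL).

PROOF.  `t ∉ K`.  Let `R = {x ∈ K | ∃ s ∈ T, s ≠ t ∧ G.Adj x s}`, and let `G'` be the graph with `G'.Adj x y` iff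
(`G.Adj x y`, `x ≠ t`, `y ≠ t`) or (`x = t`, `y ∈ R`) or (`y = t`, `x ∈ R`).  Let `W = (insert t K) \ {u, v}`; `|W|` is even
(`|K|` is odd, `u ≠ v`).
(a) `Mt G' W` with `m`: `x = m t` is in `R`, `x ≠ u`, `v`, and `m` is a perfect matching of `K \ {x, u, v}` in `G'`, so in `G`.
(b) Otherwise TUT gives `S ⊆ W`, `Fam G' W S F₁`, `|S| + 2 ≤ |F₁|`.
Case `t ∈ S`: let `B = (S \ {t}) ∪ {v}`.  `Fam G (K \ {u}) B F₁` (the sets in `F₁` are subsets of `W \ S`, so of
`K \ {u, v}`; for `x ∈ L ∈ F₁`, `y ∈ K \ {u}` adjacent: `y = v ∈ B`, or `y ∈ W`, `G'.Adj x y`, so `y ∈ L` or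
`y ∈ S`, `y ≠ t`).  `Mt G (K \ {u})` (hypothesis), so BER gives `|F₁| ≤ |B| ≤ |S|`: contradiction.
Case `t ∉ S`: let `F₂ = {L ∈ F₁ | t ∉ L}`; at most one set in `F₁` contains `t` (`pw`), so `|F₂| ≥ |S| + 1 ≥ 1`.  Let
`T' = S ∪ {u, v, t}`, `|T'| ≤ |S| + 3 ≤ |F₂| + 2`.  `Fam G univ T' F₂`: `L ∈ F₂` is a subset of `K \ {u, v}`, disjoint from
`S` and `t`.  Let `x ∈ L`, `y` adjacent in `G`: `y ∈ K` or `y ∈ T` (`Opt.good.fam`).  If `y ∈ K`: `y ∈ {u, v}` or `y ∈ W`,
`G'.Adj x y`, so `y ∈ L` or `y ∈ S`.  If `y ∈ T`, `y ≠ t`: `x ∈ R`, so `G'.Adj x t`, `t ∈ W`, so `t ∈ L` or `t ∈ S`: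
contradiction.  `K0` is disjoint from `T'` and from the sets in `F₂` (they are in `K ∪ {t}`).  ENL: the
neighbours of `K0` are in `K0 ∪ T'`; they are also in `K0 ∪ T`, and `T ∩ T' = {t}` (`S ∪ {u, v} ⊆ K ∪ {t}`), so they are in
`K0 ∪ {t}`.  CMP `four` with `T = {t}`, `A = K0`, `x = u`: `4 ≤ 1`, contradiction. -/
def SpecSNB : Prop :=
  ∀ (V : Type u) [Fintype V] [DecidableEq V] (G : SimpleGraph V) (_ : Conn4 G)
    (T K0 : Finset V) (F : Finset (Finset V)) (_ : Opt G T K0 F) (K : Finset V) (_ : K ∈ F)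
    (_ : ∀ x ∈ K, Mt G (K \ {x})) (t : V) (_ : t ∈ T) (u v : V) (_ : u ∈ K) (_ : v ∈ K)
    (_ : G.Adj u v), ∃ x ∈ K, x ≠ u ∧ x ≠ v ∧ (∃ s ∈ T, s ≠ t ∧ G.Adj x s) ∧
      Mt G (K \ {x, u, v})

/-- SNG (150 lines, from MTC, CMP, FCR, SUR, EVT, NBP, SNA, SNB).  The sets in `F` are single vertices.

PROOF.  Let `K ∈ F`, `|K| ≠ 1`, so `|K| ≥ 3` (odd).  Let `A = {y ∈ T | ∃ x ∈ K0, G.Adj x y}`: `4 ≤ |A|` by CMP `four` with
`T := A`, `A := K0`, `x` an element of `K` (it is not in `K0` and not in `T`).  EVT gives `a`, `c`, `D ⊆ K0`.  Let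
`t ∈ T \ {a, c}`, `W = ((T \ {t}) ∪ F.biUnion id) ∪ D`, `d` the colouring of `BAL` for `W`.  NBP (FCR): `u`, `v ∈ K`
adjacent, `d u = d v`.  SNB gives `x` (and `s`), SNA gives `Mt G (insert x (W \ K))`, and
`W \ {u, v} = insert x (W \ K) ∪ (K \ {x, u, v})` (disjoint; `K ⊆ W`), so `Mt G (W \ {u, v})` (MTC `uni`) and
`d u ≠ d v`: contradiction. -/
def SpecSNG : Prop :=
  ∀ (V : Type u) [Fintype V] [DecidableEq V] (G : SimpleGraph V) (_ : Conn4 G) (_ : BAL G)
    (T K0 : Finset V) (F : Finset (Finset V)) (_ : Opt G T K0 F), ∀ K ∈ F, K.card = 1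

/-! ### the hub -/

/-- A hub: `I` is independent with all neighbours in `T`. -/
structure Hub {V : Type u} [DecidableEq V] (G : SimpleGraph V) (T I : Finset V) : Prop where
  dis : Disjoint T I
  nb : ∀ x ∈ I, ∀ y, G.Adj x y → y ∈ T
  four : 4 ≤ T.card
  h1 : ∀ a ∈ T, ∀ b ∈ T, a ≠ b → Mt G ((T ∪ I) \ {a, b})
  h2 : ∀ i ∈ I, ∀ t ∈ T, G.Adj i t → ∀ a ∈ T, ∀ b ∈ T, a ≠ b → a ≠ t → b ≠ t →
    Mt G ((T ∪ I) \ {i, t, a, b})
  con : ∀ d : V → Bool, (∀ i ∈ I, ∀ t ∈ T, G.Adj i t → d i ≠ d t) →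
    ∀ a ∈ T, ∀ b ∈ T, d a = d b

/-- HUB (150 lines, from FCR, SUR, EXP, SNG).

PROOF.  `I = F.biUnion id`; for `x ∈ I` the set `{x}` is in `F` (SNG, `Finset.card_eq_one`).  `nb`: `Fam.nb` (`y ≠ x`).  `h1`, `h2`: EXP
(with `K₁ = {i}`; the sets are the same: `a`, `b`, `t ∈ T` are not in `I`, `(F.erase {i}).biUnion id = I \ {i}`).
`con`: let `X = {K ∈ F | ∃ x ∈ K, d x = false}`, `X' = {K ∈ F | ∃ x ∈ K, d x = true}`: `X' = F \ X` (single vertices).
`Nb X ⊆ {t ∈ T | d t = true}`, `Nb X' ⊆ {t ∈ T | d t = false}`, so `|Nb X| + |Nb X'| ≤ |T| = |F| + 2`.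
If `X`, `X'` are not empty (so different from `F`): `|Nb X| + |Nb X'| ≥ |X| + |X'| + 6 = |F| + 6`: contradiction.
If `X = ∅`: `X' = F`, `T = Nb F ⊆ {t | d t = false}`; the same for `X' = ∅`. -/
def SpecHUB : Prop :=
  ∀ (V : Type u) [Fintype V] [DecidableEq V] (G : SimpleGraph V) (_ : Conn4 G) (_ : BAL G)
    (T K0 : Finset V) (F : Finset (Finset V)) (_ : Opt G T K0 F), Hub G T (F.biUnion id)

/-- TWO (250 lines, from MTC, PTH).

PROOF.  `c x = decide (x ∈ I)`.  Let `(a, l, b)` be a breaking path (`SG.BP`).  `a ∈ T`: suppose `a ∈ I`.  If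
`l = x :: _`: `G.Adj a x`, so `x ∈ T` (`Hub.nb`), contradiction to `av`.  If `l = []`: `G.Adj a b`, `b ∈ T`, `c a = true`,
`c b = false`, `sg c a [] b = false`: contradiction to `br`.  In the same way `b ∈ T` (last vertex of `l`; or
reverse the path with `SG.specWKL`).  So `c a = c b = false` and `Even l.length` by `br`.
The same for `(a', l', b')`.  Let `P`, `P'` be the vertex sets of the two paths (`(a :: (l ++ [b])).toFinset`), `L`, `L'` their
interiors; `P`, `P'` are disjoint, `L`, `L'` are disjoint from `T ∪ I`.  Let `W = (T ∪ I) ∪ L ∪ L'`, `d` the colouring of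
`BAL`.
(1) The edges of `(a, l, b)` are two-coloured: for an edge `x y` of the first type in PTH `edg`:
`W \ {x, y}` = disjoint union of `P \ {x, y}`, `(T ∪ I) \ {a, b}` (`h1`), `L'` (PTH `inn`).  Second type:
`W \ {x, y}` = disjoint union of `L \ {x, y}`, `(T ∪ I) \ {a', b'}`, `P'` (PTH `full`).
(2) The edges `i t`, `i ∈ I`, `t ∈ T` are two-coloured: if `t ≠ a`, `b`: `W \ {i, t}` = disjoint union of
`(T ∪ I) \ {i, t, a, b}` (`h2`), `P`, `L'`.  Otherwise `t ≠ a'`, `b'`: `(T ∪ I) \ {i, t, a', b'}`, `P'`, `L`.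
(3) `Hub.con`: `d a = d b`.  By (1) and `SG.specWKL.ok` (or induction) `sg d a l b = false`, so `d a ≠ d b` as `l.length` is
even: contradiction. -/
def SpecTWO : Prop :=
  ∀ (V : Type u) [Fintype V] [DecidableEq V] (G : SimpleGraph V) (_ : BAL G) (T I : Finset V)
    (_ : Hub G T I) (a b a' b' : V) (l l' : List V),
    ¬ BP2 G (T ∪ I) (fun x => decide (x ∈ I)) a l b a' l' b'

/-- A path with vertex set `L` from `x` to `t`, only the last vertex in `T`, no vertex in `I`; even length if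
`k = false`, odd length if `k = true`. -/
structure Leg {V : Type u} [DecidableEq V] (G : SimpleGraph V) (T I : Finset V) (k : Bool)
    (x t : V) (L : Finset V) : Prop where
  mx : x ∈ L
  mt : t ∈ L
  tT : t ∈ T
  dT : ∀ z ∈ L, z ∈ T → z = t
  dI : ∀ z ∈ L, z ∉ I
  ev : k = false → Mt G (L \ {x}) ∧ Mt G (L \ {t})
  od : k = true → x ≠ t ∧ Mt G L ∧ Mt G (L \ {x, t})

/-- MEN (250 lines, from MTC, PTH).

PROOF.  Let `c x = decide (x ∈ I)`.  `x`, `y`, `z` are different (adjacent).  They are not in `I`: if `x ∈ I` then `y ∈ T`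
(`Hub.nb`), `κ x = c x = true`, `κ y = false` (`Tri.col`; `T`, `I` are disjoint), contradiction to `k₁₂`; the same for
the others.  `DL.menger'` (in `Pool/Agent/DL/MENG.lean`) for `A = {x, y, z}`, `B = T`, `k = 3`: for `|S| ≤ 2` there are
`a ∈ A \ S` and `b ∈ T \ S` (`|T| ≥ 4`), they are connected in `G - S` by `Conn4` (see `SG.specFAN` in
`SG/FAN.lean` for the same argument and the conversion of paths to lists).  We get three disjoint
paths; their starts are different, so they are `x`, `y`, `z` in some order; renumber.  Let `w` be the path from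
`x` to `t₁ ∈ T`.  Only the last vertex is in `T`, only the first vertex is in `{x, y, z}`.  No vertex is in `I`: `x ∉ I`,
`t₁ ∉ I`, and a vertex of `I` in the interior would have a predecessor in `T` (`Hub.nb`), which is not the last
vertex.  All edges of `w` are two-coloured for `κ`: otherwise both ends are in `{x, y, z}` (`Tri.only`), so both
are `x`.  `κ t₁ = false`.  If `x = t₁` then `L₁ = {x}`, `κ x = false`, and `ev` is MTC `emp`.  Otherwise `w` is a path
`(x, l, t₁)`, by `SG.specWKL.ok` `sg κ x l t₁ = false`, so `l.length` is even iff `κ x = true`.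
`L₁ = (x :: (l ++ [t₁])).toFinset`; PTH: `ev`: `rgt`, `lft`; `od`: `full`, `inn`.  `κ y = κ z = κ x`. -/
def SpecMEN : Prop :=
  ∀ (V : Type u) [Fintype V] [DecidableEq V] (G : SimpleGraph V) (_ : Conn4 G) (T I : Finset V)
    (_ : Hub G T I) (κ : V → Bool) (x y z : V)
    (_ : Tri G (T ∪ I) (fun v => decide (v ∈ I)) κ x y z),
    ∃ (t₁ t₂ t₃ : V) (L₁ L₂ L₃ : Finset V), Leg G T I (κ x) x t₁ L₁ ∧ Leg G T I (κ x) y t₂ L₂ ∧
      Leg G T I (κ x) z t₃ L₃ ∧ Disjoint L₁ L₂ ∧ Disjoint L₁ L₃ ∧ Disjoint L₂ L₃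

/-- TRG (200 lines, from MTC).

PROOF.  Lemma: `Mt G (W \ {x, y})` for a suitable `W` which is symmetric in the three legs.
`k = false`: `W = (T ∪ I) ∪ L₁ ∪ L₂ ∪ L₃`; `W \ {x, y}` is the disjoint union of `L₁ \ {x}`, `L₂ \ {y}`, `L₃ \ {t₃}`,
`(T ∪ I) \ {t₁, t₂}` (`h1`; `t₁ ≠ t₂` as the legs are disjoint; `t₁ ∈ L₁ \ {x}` unless `x = t₁`; `t₃ ∈ (T ∪ I) \ {t₁, t₂}`).
`k = true`: let `t ∈ T \ {t₁, t₂, t₃}` (`|T| ≥ 4`), `W = ((T \ {t}) ∪ I) ∪ L₁ ∪ L₂ ∪ L₃`; `W \ {x, y}` is the disjoint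
union of `L₁ \ {x, t₁}`, `L₂ \ {y, t₂}`, `L₃`, `(T ∪ I) \ {t, t₃}` (`h1`).
By symmetry (exchange the legs) the same for `x z` and `y z`.  So the colouring `d` of `BAL` for `W` has
`d x ≠ d y`, `d x ≠ d z`, `d y ≠ d z`: impossible for `Bool`. -/
def SpecTRG : Prop :=
  ∀ (V : Type u) [Fintype V] [DecidableEq V] (G : SimpleGraph V) (_ : BAL G) (T I : Finset V)
    (_ : Hub G T I) (k : Bool) (x y z : V) (_ : G.Adj x y) (_ : G.Adj x z) (_ : G.Adj y z)
    (t₁ t₂ t₃ : V) (L₁ L₂ L₃ : Finset V) (_ : Leg G T I k x t₁ L₁) (_ : Leg G T I k y t₂ L₂)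
    (_ : Leg G T I k z t₃ L₃) (_ : Disjoint L₁ L₂) (_ : Disjoint L₁ L₃) (_ : Disjoint L₂ L₃), False

/-- The theorem. -/
def Main : Prop :=
  ∀ (V : Type u) [Fintype V] (G : SimpleGraph V) (_ : Conn4 G), IsSeymour G ↔ Apex G

/-- FIN (80 lines, from BAS, OPT, INI, HUB, TWO, MEN, TRG).

PROOF.  `←`: `SG.mAPX` (import `Pool.Agent.Lib.MP_ded8ec_lc.SG.Main`).  `→`: BAS, INI: `Apex`, or a good triple, OPT, HUB:
a hub `T`, `I`.  `SG.mDIC` for `R = T ∪ I`, `c x = decide (x ∈ I)` (`|R| ≥ |T| ≥ 4`): two disjoint breaking paths: TWO.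
`Apex`: done.  `Tri`: MEN, TRG. -/
def SpecFIN : Prop := Main.{u}

end Pool.Agent.Lib.MPded8ec.FC
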